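import Mathlib
set_option autoImplicit false

/-! Second differences of square roots and quotients. -/

namespace Pool.Agent.H153R5

/-- bounds for first and second differences at four corners -/
structure DD (f00 f10 f01 f11 : ℂ) (X Y Z : ℝ) : Prop where
  x0 : ‖f10 - f00‖ ≤ X
  x1 : ‖f11 - f01‖ ≤ X
  y0 : ‖f01 - f00‖ ≤ Y
  y1 : ‖f11 - f10‖ ≤ Y
  z : ‖f11 - f10 - f01 + f00‖ ≤ Z

variable {f00 f10 f01 f11 g00 g10 g01 g11 : ℂ} {X Y Z X' Y' Z' : ℝ}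

lemma DD.add (hf : DD f00 f10 f01 f11 X Y Z) (hg : DD g00 g10 g01 g11 X' Y' Z') :
    DD (f00 + g00) (f10 + g10) (f01 + g01) (f11 + g11) (X + X') (Y + Y') (Z + Z') := by
  refine ⟨?_, ?_, ?_, ?_, ?_⟩
  · rw [add_sub_add_comm]
    exact (norm_add_le _ _).trans (add_le_add hf.x0 hg.x0)
  · rw [add_sub_add_comm]
    exact (norm_add_le _ _).trans (add_le_add hf.x1 hg.x1)
  · rw [add_sub_add_comm]
    exact (norm_add_le _ _).trans (add_le_add hf.y0 hg.y0)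
  · rw [add_sub_add_comm]
    exact (norm_add_le _ _).trans (add_le_add hf.y1 hg.y1)
  · have : f11 + g11 - (f10 + g10) - (f01 + g01) + (f00 + g00) =
        (f11 - f10 - f01 + f00) + (g11 - g10 - g01 + g00) := by ring
    rw [this]
    exact (norm_add_le _ _).trans (add_le_add hf.z hg.z)

lemma inv_diff (a b : ℂ) (ha : 1 ≤ ‖a‖) (hb : 1 ≤ ‖b‖) : ‖a⁻¹ - b⁻¹‖ ≤ ‖a - b‖ := by
  have ha0 : a ≠ 0 := norm_pos_iff.1 (by linarith)
  have hb0 : b ≠ 0 := norm_pos_iff.1 (by linarith)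
  have : a⁻¹ - b⁻¹ = (b - a) / (a * b) := by field_simp
  rw [this, norm_div, norm_mul, norm_sub_rev b a, div_le_iff₀ (by positivity)]
  have h1 : 1 ≤ ‖a‖ * ‖b‖ := by nlinarith
  nlinarith [norm_nonneg (a - b)]

lemma norm_inv_le (a : ℂ) (ha : 1 ≤ ‖a‖) : ‖a⁻¹‖ ≤ 1 := by
  rw [norm_inv]
  exact inv_le_one_of_one_le₀ ha

lemma DD.inv (hf : DD f00 f10 f01 f11 X Y Z) (h00 : 1 ≤ ‖f00‖) (h10 : 1 ≤ ‖f10‖)
    (h01 : 1 ≤ ‖f01‖) (h11 : 1 ≤ ‖f11‖) :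
    DD f00⁻¹ f10⁻¹ f01⁻¹ f11⁻¹ X Y (Z + 2 * X * Y) := by
  have n00 : f00 ≠ 0 := norm_pos_iff.1 (by linarith)
  have n10 : f10 ≠ 0 := norm_pos_iff.1 (by linarith)
  have n01 : f01 ≠ 0 := norm_pos_iff.1 (by linarith)
  have n11 : f11 ≠ 0 := norm_pos_iff.1 (by linarith)
  have hX : 0 ≤ X := (norm_nonneg _).trans hf.x0
  have hY : 0 ≤ Y := (norm_nonneg _).trans hf.y0
  have hZ : 0 ≤ Z := (norm_nonneg _).trans hf.z
  have a1 := (inv_diff _ _ h10 h00).trans hf.x0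
  have a2 := (inv_diff _ _ h11 h01).trans hf.x1
  refine ⟨a1, a2, (inv_diff _ _ h01 h00).trans hf.y0, (inv_diff _ _ h11 h10).trans hf.y1, ?_⟩
  have e : f11⁻¹ - f10⁻¹ - f01⁻¹ + f00⁻¹ = -(f11 - f10 - f01 + f00) * (f11⁻¹ * f10⁻¹) -
      (f01 - f00) * ((f11⁻¹ - f01⁻¹) * f10⁻¹ + f01⁻¹ * (f10⁻¹ - f00⁻¹)) := by
    field_simp
    ring
  rw [e]
  have b1 := norm_inv_le _ h11
  have b2 := norm_inv_le _ h10
  have b3 := norm_inv_le _ h01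
  have c1 : ‖-(f11 - f10 - f01 + f00) * (f11⁻¹ * f10⁻¹)‖ ≤ Z := by
    rw [norm_mul, norm_mul, norm_neg]
    calc ‖f11 - f10 - f01 + f00‖ * (‖f11⁻¹‖ * ‖f10⁻¹‖) ≤ Z * (1 * 1) := by
          gcongr
          exact hf.z
      _ = Z := by ring
  have c2 : ‖(f11⁻¹ - f01⁻¹) * f10⁻¹ + f01⁻¹ * (f10⁻¹ - f00⁻¹)‖ ≤ 2 * X := by
    refine (norm_add_le _ _).trans ?_
    rw [norm_mul, norm_mul]
    calc ‖f11⁻¹ - f01⁻¹‖ * ‖f10⁻¹‖ + ‖f01⁻¹‖ * ‖f10⁻¹ - f00⁻¹‖ ≤ X * 1 + 1 * X := by gcongr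
      _ = 2 * X := by ring
  refine (norm_sub_le _ _).trans ?_
  rw [norm_mul (f01 - f00)]
  calc ‖-(f11 - f10 - f01 + f00) * (f11⁻¹ * f10⁻¹)‖ +
        ‖f01 - f00‖ * ‖(f11⁻¹ - f01⁻¹) * f10⁻¹ + f01⁻¹ * (f10⁻¹ - f00⁻¹)‖
      ≤ Z + Y * (2 * X) := by
        gcongr
        exact hf.y0
    _ = Z + 2 * X * Y := by ring

lemma one_le_add (a b : ℂ) (ha : 1 / 2 ≤ a.re) (hb : 1 / 2 ≤ b.re) : 1 ≤ ‖a + b‖ := by
  have := Complex.re_le_norm (a + b)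
  rw [Complex.add_re] at this
  linarith

lemma sqrt_diff (v w q r : ℂ) (hv : v ^ 2 = 1 - q) (hw : w ^ 2 = 1 - r) (h1 : 1 / 2 ≤ v.re)
    (h2 : 1 / 2 ≤ w.re) : ‖v - w‖ ≤ ‖q - r‖ := by
  have h := one_le_add v w h1 h2
  have e : (v - w) * (v + w) = -(q - r) := by linear_combination hv - hw
  have e2 := congrArg norm e
  rw [norm_mul, norm_neg] at e2
  nlinarith [norm_nonneg (v - w)]

lemma DD.sqrt {v00 v10 v01 v11 : ℂ} (hf : DD f00 f10 f01 f11 X Y Z)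
    (s00 : v00 ^ 2 = 1 - f00) (s10 : v10 ^ 2 = 1 - f10) (s01 : v01 ^ 2 = 1 - f01)
    (s11 : v11 ^ 2 = 1 - f11) (h00 : 1 / 2 ≤ v00.re) (h10 : 1 / 2 ≤ v10.re)
    (h01 : 1 / 2 ≤ v01.re) (h11 : 1 / 2 ≤ v11.re) :
    DD v00 v10 v01 v11 X Y (Z + 2 * X * Y) := by
  have hX : 0 ≤ X := (norm_nonneg _).trans hf.x0
  have hY : 0 ≤ Y := (norm_nonneg _).trans hf.y0
  have hZ : 0 ≤ Z := (norm_nonneg _).trans hf.z
  have a0 := (sqrt_diff _ _ _ _ s10 s00 h10 h00).trans hf.x0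
  have a1 := (sqrt_diff _ _ _ _ s11 s01 h11 h01).trans hf.x1
  refine ⟨a0, a1, (sqrt_diff _ _ _ _ s01 s00 h01 h00).trans hf.y0,
    (sqrt_diff _ _ _ _ s11 s10 h11 h10).trans hf.y1, ?_⟩
  have m1 := one_le_add v11 v10 h11 h10
  have m0 := one_le_add v01 v00 h01 h00
  have n1 : v11 + v10 ≠ 0 := norm_pos_iff.1 (by linarith)
  have n0 : v01 + v00 ≠ 0 := norm_pos_iff.1 (by linarith)
  have e1 : v11 - v10 = -(f11 - f10) * (v11 + v10)⁻¹ := by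
    field_simp
    linear_combination s11 - s10
  have e0 : v01 - v00 = -(f01 - f00) * (v01 + v00)⁻¹ := by
    field_simp
    linear_combination s01 - s00
  have e : v11 - v10 - v01 + v00 = -(f11 - f10 - f01 + f00) * (v11 + v10)⁻¹ -
      (f01 - f00) * ((v11 + v10)⁻¹ - (v01 + v00)⁻¹) := by
    linear_combination e1 - e0
  rw [e]
  have c1 : ‖-(f11 - f10 - f01 + f00) * (v11 + v10)⁻¹‖ ≤ Z := by
    rw [norm_mul, norm_neg]
    calc ‖f11 - f10 - f01 + f00‖ * ‖(v11 + v10)⁻¹‖ ≤ Z * 1 := by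
          gcongr
          · exact hf.z
          · exact norm_inv_le _ m1
      _ = Z := by ring
  have c2 : ‖(v11 + v10)⁻¹ - (v01 + v00)⁻¹‖ ≤ 2 * X := by
    refine (inv_diff _ _ m1 m0).trans ?_
    have : v11 + v10 - (v01 + v00) = (v11 - v01) + (v10 - v00) := by ring
    rw [this]
    refine (norm_add_le _ _).trans ?_
    linarith
  refine (norm_sub_le _ _).trans ?_
  rw [norm_mul (f01 - f00)]
  calc ‖-(f11 - f10 - f01 + f00) * (v11 + v10)⁻¹‖ +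
        ‖f01 - f00‖ * ‖(v11 + v10)⁻¹ - (v01 + v00)⁻¹‖ ≤ Z + Y * (2 * X) := by
        gcongr
        exact hf.y0
    _ = Z + 2 * X * Y := by ring

lemma prod_est {c00 c10 c01 c11 s00 s10 s01 s11 : ℂ} {η Xs Ys Zs C0 Cx Cy Cz : ℝ}
    (hs : DD s00 s10 s01 s11 Xs Ys Zs) (hη : ‖s11 - 1 / 2‖ ≤ η)
    (h0 : ‖c00‖ ≤ C0) (hc : DD c00 c10 c01 c11 Cx Cy Cz) :
    ‖(c11 * s11 - c10 * s10 - c01 * s01 + c00 * s00) - (c11 - c10 - c01 + c00) / 2‖ ≤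
      Cz * η + Cx * Ys + Cy * Xs + C0 * Zs := by
  have e : (c11 * s11 - c10 * s10 - c01 * s01 + c00 * s00) - (c11 - c10 - c01 + c00) / 2 =
      (c11 - c10 - c01 + c00) * (s11 - 1 / 2) + (c10 - c00) * (s11 - s10) +
        (c01 - c00) * (s11 - s01) + c00 * (s11 - s10 - s01 + s00) := by ring
  have hCx : 0 ≤ Cx := (norm_nonneg _).trans hc.x0
  have hCy : 0 ≤ Cy := (norm_nonneg _).trans hc.y0
  have hCz : 0 ≤ Cz := (norm_nonneg _).trans hc.z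
  have hC0 : 0 ≤ C0 := (norm_nonneg _).trans h0
  rw [e]
  refine (norm_add_le _ _).trans (add_le_add ((norm_add_le _ _).trans (add_le_add
    ((norm_add_le _ _).trans (add_le_add ?_ ?_)) ?_)) ?_)
  · rw [norm_mul]
    exact mul_le_mul hc.z hη (norm_nonneg _) hCz
  · rw [norm_mul]
    exact mul_le_mul hc.x0 hs.y1 (norm_nonneg _) hCx
  · rw [norm_mul]
    exact mul_le_mul hc.y0 hs.x1 (norm_nonneg _) hCy
  · rw [norm_mul]
    exact mul_le_mul h0 hs.z (norm_nonneg _) hC0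

end Pool.Agent.H153R5
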