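import Mathlib
set_option autoImplicit false

/-! A contour shift with a polynomial cut-off. -/

namespace Pool.Agent.H153R5

open Complex MeasureTheory Set intervalIntegral

/-- constant -/
noncomputable def CN (N : ℕ) (a : ℝ) : ℝ :=
  2 * a * (3 * a) ^ (2 * N) * (N + 1).factorial / a ^ (N + 1) + 2 * ((3 * a) ^ N * N.factorial)

lemma int_pow_exp (N : ℕ) (c a : ℝ) (hc : 0 < c) (ha : 0 < a) :
    ∫ y in (0 : ℝ)..a, y ^ N * Real.exp (-(c * y)) ≤ N.factorial / c ^ (N + 1) := by
  have h1 : ∫ y in Ioi (0 : ℝ), y ^ ((N + 1 : ℝ) - 1) * Real.exp (-(c * y)) =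
      (1 / c) ^ (N + 1 : ℝ) * Real.Gamma (N + 1) :=
    Real.integral_rpow_mul_exp_neg_mul_Ioi (by positivity) hc
  have h2 : IntegrableOn (fun y : ℝ => y ^ ((N + 1 : ℝ) - 1) * Real.exp (-(c * y))) (Ioi 0) := by
    by_contra hcon
    rw [integral_undef hcon] at h1
    have : 0 < (1 / c) ^ (N + 1 : ℝ) * Real.Gamma (N + 1) :=
      mul_pos (by positivity) (Real.Gamma_pos_of_pos (by positivity))
    linarith
  rw [intervalIntegral.integral_of_le ha.le]
  have h3 : ∫ y in Ioc (0 : ℝ) a, y ^ N * Real.exp (-(c * y)) =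
      ∫ y in Ioc (0 : ℝ) a, y ^ ((N + 1 : ℝ) - 1) * Real.exp (-(c * y)) := by
    apply setIntegral_congr_fun measurableSet_Ioc
    intro y hy
    simp only
    rw [add_sub_cancel_right, Real.rpow_natCast]
  rw [h3]
  have h4 : ∫ y in Ioc (0 : ℝ) a, y ^ ((N + 1 : ℝ) - 1) * Real.exp (-(c * y)) ≤
      ∫ y in Ioi (0 : ℝ), y ^ ((N + 1 : ℝ) - 1) * Real.exp (-(c * y)) := by
    apply setIntegral_mono_set h2
    · filter_upwards [ae_restrict_mem measurableSet_Ioi] with y hy
      have : (0 : ℝ) < y := hy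
      positivity
    · exact Filter.Eventually.of_forall Ioc_subset_Ioi_self
  refine h4.trans (le_of_eq ?_)
  rw [h1, Real.Gamma_nat_eq_factorial]
  have : (1 / c) ^ (N + 1 : ℝ) = (1 / c) ^ (N + 1) := by
    rw [← Real.rpow_natCast]
    push_cast
    rfl
  rw [this, one_div, inv_pow, div_eq_mul_inv, mul_comm]

lemma exp_le_fac (N : ℕ) (x : ℝ) (hx : 0 < x) : Real.exp (-x) ≤ N.factorial / x ^ N := by
  rw [Real.exp_neg, le_div_iff₀ (by positivity), inv_mul_le_iff₀ (Real.exp_pos _)]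
  have := Real.pow_div_factorial_le_exp x hx.le N
  rw [div_le_iff₀ (by positivity)] at this
  linarith

lemma contour (a : ℝ) (ha : 0 < a) (N : ℕ) (f : ℂ → ℂ) (c : ℝ) (hc : 0 < c)
    (hd : DifferentiableOn ℂ f {ζ | |ζ.re| ≤ a ∧ |ζ.im| ≤ a})
    (hb : ∀ x y : ℝ, |x| ≤ a → 0 ≤ y → y ≤ a → ‖f (x + y * I)‖ ≤ Real.exp (-(c * y))) :
    ‖∫ x in (-a)..a, (((a ^ 2 - x ^ 2) ^ N : ℝ) : ℂ) * f x‖ ≤ CN N a / c ^ (N + 1) := by
  set F : ℂ → ℂ := fun ζ => ((a : ℂ) ^ 2 - ζ ^ 2) ^ N * f ζ with hF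
  have hdF : DifferentiableOn ℂ F (Set.uIcc (-a) a ×ℂ Set.uIcc 0 a) := by
    apply DifferentiableOn.mul (by fun_prop)
    apply hd.mono
    intro ζ hζ
    rw [mem_reProdIm] at hζ
    rw [uIcc_of_le (by linarith), uIcc_of_le ha.le] at hζ
    refine ⟨abs_le.2 hζ.1, abs_le.2 ⟨by linarith [hζ.2.1], hζ.2.2⟩⟩
  have hrect := Complex.integral_boundary_rect_eq_zero_of_differentiableOn F
    ((-a : ℝ) : ℂ) ((a : ℂ) + a * I) (by simpa using hdF)
  simp only [ofReal_re, ofReal_im, add_re, mul_re, I_re, I_im, add_im, mul_im, mul_zero, mul_one,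
    sub_self, add_zero, zero_add, ofReal_zero, zero_mul, sub_zero] at hrect
  have hn : ∀ x y : ℝ, |x| ≤ a → 0 ≤ y → y ≤ a → ‖F (x + y * I)‖ ≤
      (‖(a : ℂ) - (x + y * I)‖ * ‖(a : ℂ) + (x + y * I)‖) ^ N * Real.exp (-(c * y)) := by
    intro x y hx hy hya
    rw [hF]
    simp only
    rw [norm_mul, norm_pow, ← norm_mul]
    have e : ((a : ℂ) - (x + y * I)) * ((a : ℂ) + (x + y * I)) = (a : ℂ) ^ 2 - (x + y * I) ^ 2 := by
      ring
    rw [e]
    gcongr
    exact hb x y hx hy hya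
  have ht : ∀ x y : ℝ, |x| ≤ a → 0 ≤ y → y ≤ a → ‖(x : ℂ) + y * I‖ ≤ 2 * a := by
    intro x y hx hy hya
    calc ‖(x : ℂ) + y * I‖ ≤ ‖(x : ℂ)‖ + ‖(y : ℂ) * I‖ := norm_add_le _ _
      _ = |x| + |y| := by
          rw [norm_mul, Complex.norm_I, mul_one, Complex.norm_real, Complex.norm_real,
            Real.norm_eq_abs, Real.norm_eq_abs]
      _ ≤ 2 * a := by rw [abs_of_nonneg hy]; linarith
  have han : ‖(a : ℂ)‖ = a := by rw [Complex.norm_real, Real.norm_of_nonneg ha.le]
  -- top side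
  have htop : ‖∫ x in (-a)..a, F (x + a * I)‖ ≤
      2 * a * (3 * a) ^ (2 * N) * (N + 1).factorial / a ^ (N + 1) / c ^ (N + 1) := by
    have h1 : ‖∫ x in (-a)..a, F (x + a * I)‖ ≤
        ((3 * a) ^ (2 * N) * Real.exp (-(c * a))) * |a - (-a)| := by
      apply intervalIntegral.norm_integral_le_of_norm_le_const
      intro x hx
      rw [uIoc_of_le (by linarith)] at hx
      have hxa : |x| ≤ a := abs_le.2 ⟨hx.1.le, hx.2⟩
      refine (hn x a hxa ha.le le_rfl).trans ?_
      gcongr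
      rw [pow_mul]
      gcongr
      rw [sq]
      have h2 := ht x a hxa ha.le le_rfl
      apply mul_le_mul _ _ (norm_nonneg _) (by positivity)
      · refine (norm_sub_le _ _).trans ?_
        rw [han]
        linarith
      · refine (norm_add_le _ _).trans ?_
        rw [han]
        linarith
    refine h1.trans ?_
    have h3 := exp_le_fac (N + 1) (c * a) (by positivity)
    have h4 : |a - (-a)| = 2 * a := by
      rw [sub_neg_eq_add, ← two_mul, abs_of_pos (by positivity)]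
    rw [h4]
    calc (3 * a) ^ (2 * N) * Real.exp (-(c * a)) * (2 * a)
        ≤ (3 * a) ^ (2 * N) * ((N + 1).factorial / (c * a) ^ (N + 1)) * (2 * a) := by gcongr
      _ = _ := by
          rw [mul_pow c a]
          field_simp
  have hside : ∀ x : ℝ, (x = a ∨ x = -a) → ‖∫ y in (0 : ℝ)..a, F (x + y * I)‖ ≤
      (3 * a) ^ N * N.factorial / c ^ (N + 1) := by
    intro x hx
    have hxa : |x| ≤ a := by
      rcases hx with rfl | rfl
      · rw [abs_of_pos ha]
      · rw [abs_neg, abs_of_pos ha]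
    have h1 : ‖∫ y in (0 : ℝ)..a, F (x + y * I)‖ ≤
        ∫ y in (0 : ℝ)..a, (3 * a) ^ N * (y ^ N * Real.exp (-(c * y))) := by
      apply intervalIntegral.norm_integral_le_of_norm_le ha.le
      · refine Filter.Eventually.of_forall fun y hy => ?_
        refine (hn x y hxa hy.1.le hy.2).trans ?_
        rw [← mul_assoc, ← mul_pow]
        have h2 := ht x y hxa hy.1.le hy.2
        have hy0 : 0 ≤ y := hy.1.le
        have h3 : ‖(y : ℂ) * I‖ = y := by
          rw [norm_mul, Complex.norm_I, mul_one, Complex.norm_real, Real.norm_of_nonneg hy.1.le]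
        have h4 : ‖(a : ℂ) - (x + y * I)‖ ≤ 3 * a := by
          refine (norm_sub_le _ _).trans ?_
          rw [han]
          linarith
        have h5 : ‖(a : ℂ) + (x + y * I)‖ ≤ 3 * a := by
          refine (norm_add_le _ _).trans ?_
          rw [han]
          linarith
        have h6 : ‖(a : ℂ) - (x + y * I)‖ * ‖(a : ℂ) + (x + y * I)‖ ≤ 3 * a * y := by
          rcases hx with hx | hx
          · have e1 : ((a : ℂ) - (x + y * I)) = -(y * I) := by rw [hx]; ring
            rw [e1, norm_neg, h3, mul_comm]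
            exact mul_le_mul_of_nonneg_right h5 hy0
          · have e1 : ((a : ℂ) + (x + y * I)) = y * I := by rw [hx]; push_cast; ring
            rw [e1, h3]
            exact mul_le_mul_of_nonneg_right h4 hy0
        gcongr
      · apply Continuous.intervalIntegrable
        fun_prop
    refine h1.trans ?_
    rw [intervalIntegral.integral_const_mul, mul_div_assoc]
    gcongr
    exact int_pow_exp N c a hc ha
  have hmain : ∫ x in (-a)..a, F x = (∫ x in (-a)..a, F (x + a * I)) -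
      I • (∫ y in (0 : ℝ)..a, F (a + y * I)) + I • ∫ y in (0 : ℝ)..a, F (((-a : ℝ) : ℂ) + y * I) := by
    linear_combination hrect
  have hconv : ∫ x in (-a)..a, (((a ^ 2 - x ^ 2) ^ N : ℝ) : ℂ) * f x = ∫ x in (-a)..a, F x := by
    apply intervalIntegral.integral_congr
    intro x _
    simp only [hF]
    push_cast
    rfl
  rw [hconv, hmain]
  calc ‖(∫ x in (-a)..a, F (x + a * I)) -
      I • (∫ y in (0 : ℝ)..a, F (a + y * I)) + I • ∫ y in (0 : ℝ)..a, F (((-a : ℝ) : ℂ) + y * I)‖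
      ≤ ‖∫ x in (-a)..a, F (x + a * I)‖ + ‖I • ∫ y in (0 : ℝ)..a, F (a + y * I)‖ +
        ‖I • ∫ y in (0 : ℝ)..a, F (((-a : ℝ) : ℂ) + y * I)‖ :=
        (norm_add_le _ _).trans (add_le_add (norm_sub_le _ _) le_rfl)
    _ ≤ 2 * a * (3 * a) ^ (2 * N) * (N + 1).factorial / a ^ (N + 1) / c ^ (N + 1) +
        (3 * a) ^ N * N.factorial / c ^ (N + 1) + (3 * a) ^ N * N.factorial / c ^ (N + 1) := by
        rw [norm_smul, norm_smul, Complex.norm_I, one_mul, one_mul]
        gcongr
        · exact hside a (Or.inl rfl)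
        · exact hside (-a) (Or.inr rfl)
    _ = _ := by
        unfold CN
        ring

end Pool.Agent.H153R5
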