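import Mathlib
import Pool.Agent.H153R5.Alg
import Pool.Agent.H153R5.Cont
set_option autoImplicit false

/-! The phase functions of linear images of the sphere. -/

namespace Pool.Agent.H153R5

open Complex MeasureTheory Set

variable {k : ℕ}

/-- size of the neighbourhoods -/
noncomputable def ep (k : ℕ) : ℝ := 1 / (100 * k)

lemma ep_pos (hk : 1 ≤ k) : 0 < ep k := by
  have : (1 : ℝ) ≤ k := by exact_mod_cast hk
  unfold ep
  positivity

lemma k_ep (hk : 1 ≤ k) : k * ep k = 1 / 100 := by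
  have : (1 : ℝ) ≤ k := by exact_mod_cast hk
  unfold ep
  field_simp

lemma ep_le (hk : 1 ≤ k) : ep k ≤ 1 / 100 := by
  have h1 : (1 : ℝ) ≤ k := by exact_mod_cast hk
  have h2 := k_ep hk
  have h3 := ep_pos hk
  nlinarith

/-- linear image -/
noncomputable def uu (A : Fin k × Fin k → ℂ) (z : Fin k → ℝ) (m : Fin k) : ℂ :=
  ∑ b, A (m, b) * (z b : ℂ)

/-- squared norm of the image -/
noncomputable def qq (A : Fin k × Fin k → ℂ) (z : Fin k → ℝ) : ℂ := ∑ m, (uu A z m) ^ 2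

/-- the height -/
noncomputable def vv (A : Fin k × Fin k → ℂ) (z : Fin k → ℝ) : ℂ := (1 - qq A z) ^ ((2 : ℂ)⁻¹)

/-- near identity -/
def NI (A : Fin k × Fin k → ℂ) : Prop :=
  ∀ m b, ‖A (m, b) - (if m = b then 1 else 0)‖ ≤ 2 * ep k

lemma uu_add (A : Fin k × Fin k → ℂ) (z w : Fin k → ℝ) (m : Fin k) :
    uu A (z + w) m = uu A z m + uu A w m := by
  unfold uu
  rw [← Finset.sum_add_distrib]
  apply Finset.sum_congr rfl
  intro b _
  simp only [Pi.add_apply]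
  push_cast
  ring

lemma abs_coord (z : Fin k → ℝ) (b : Fin k) : |z b| ≤ ‖z‖ := by
  rw [← Real.norm_eq_abs]
  exact norm_le_pi_norm z b

lemma ncoord (z : Fin k → ℝ) (b : Fin k) : ‖(z b : ℂ)‖ ≤ ‖z‖ := by
  rw [Complex.norm_real]
  exact norm_le_pi_norm z b

lemma uu_sub (hk : 1 ≤ k) {A : Fin k × Fin k → ℂ} (hA : NI A) (z : Fin k → ℝ) (m : Fin k) :
    ‖uu A z m - z m‖ ≤ ‖z‖ / 50 := by
  have e : uu A z m - z m = ∑ b, (A (m, b) - (if m = b then 1 else 0)) * (z b : ℂ) := by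
    unfold uu
    simp only [sub_mul, Finset.sum_sub_distrib, ite_mul, one_mul, zero_mul, Finset.sum_ite_eq,
      Finset.mem_univ, if_true]
  rw [e]
  calc ‖∑ b, (A (m, b) - (if m = b then 1 else 0)) * (z b : ℂ)‖
      ≤ ∑ b : Fin k, 2 * ep k * ‖z‖ := by
        refine (norm_sum_le _ _).trans (Finset.sum_le_sum fun b _ => ?_)
        rw [norm_mul]
        have := ep_pos hk
        exact mul_le_mul (hA m b) (ncoord z b) (norm_nonneg _) (by positivity)
    _ = 2 * (k * ep k) * ‖z‖ := by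
        rw [Finset.sum_const, Finset.card_univ, Fintype.card_fin, nsmul_eq_mul]
        ring
    _ = ‖z‖ / 50 := by
        rw [k_ep hk]
        ring

lemma uu_le (hk : 1 ≤ k) {A : Fin k × Fin k → ℂ} (hA : NI A) (z : Fin k → ℝ) (m : Fin k) :
    ‖uu A z m‖ ≤ 2 * ‖z‖ := by
  have h1 := uu_sub hk hA z m
  have h2 := ncoord z m
  have h3 : ‖uu A z m‖ ≤ ‖uu A z m - z m‖ + ‖(z m : ℂ)‖ := by
    simpa using norm_add_le (uu A z m - z m) (z m : ℂ)
  have := norm_nonneg z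
  linarith

lemma qq_diff (hk : 1 ≤ k) {A : Fin k × Fin k → ℂ} (hA : NI A) (z w : Fin k → ℝ)
    (hz : ‖z‖ ≤ ep k) (hzw : ‖z + w‖ ≤ ep k) : ‖qq A (z + w) - qq A z‖ ≤ 2 / 25 * ‖w‖ := by
  have e : qq A (z + w) - qq A z = ∑ m, uu A w m * (uu A z m + uu A (z + w) m) := by
    unfold qq
    rw [← Finset.sum_sub_distrib]
    apply Finset.sum_congr rfl
    intro m _
    rw [uu_add]
    ring
  rw [e]
  calc ‖∑ m, uu A w m * (uu A z m + uu A (z + w) m)‖
      ≤ ∑ m : Fin k, 2 * ‖w‖ * (4 * ep k) := by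
        refine (norm_sum_le _ _).trans (Finset.sum_le_sum fun m _ => ?_)
        rw [norm_mul]
        apply mul_le_mul (uu_le hk hA w m) _ (norm_nonneg _) (by positivity)
        refine (norm_add_le _ _).trans ?_
        have h1 := uu_le hk hA z m
        have h2 := uu_le hk hA (z + w) m
        linarith
    _ = 8 * (k * ep k) * ‖w‖ := by
        rw [Finset.sum_const, Finset.card_univ, Fintype.card_fin, nsmul_eq_mul]
        ring
    _ = _ := by
        rw [k_ep hk]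
        ring

lemma qq_dd (hk : 1 ≤ k) {A : Fin k × Fin k → ℂ} (hA : NI A) (z w h : Fin k → ℝ) :
    ‖qq A (z + w + h) - qq A (z + w) - qq A (z + h) + qq A z‖ ≤ 8 * k * (‖w‖ * ‖h‖) := by
  have e : qq A (z + w + h) - qq A (z + w) - qq A (z + h) + qq A z =
      ∑ m, 2 * uu A w m * uu A h m := by
    unfold qq
    rw [← Finset.sum_sub_distrib, ← Finset.sum_sub_distrib, ← Finset.sum_add_distrib]
    apply Finset.sum_congr rfl
    intro m _
    simp only [uu_add]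
    ring
  rw [e]
  calc ‖∑ m, 2 * uu A w m * uu A h m‖ ≤ ∑ m : Fin k, 2 * (2 * ‖w‖) * (2 * ‖h‖) := by
        refine (norm_sum_le _ _).trans (Finset.sum_le_sum fun m _ => ?_)
        rw [norm_mul, norm_mul, Complex.norm_ofNat]
        have h1 := uu_le hk hA w m
        have h2 := uu_le hk hA h m
        gcongr
    _ = _ := by
        rw [Finset.sum_const, Finset.card_univ, Fintype.card_fin, nsmul_eq_mul]
        ring

lemma qq_le (hk : 1 ≤ k) {A : Fin k × Fin k → ℂ} (hA : NI A) (z : Fin k → ℝ)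
    (hz : ‖z‖ ≤ ep k) : ‖qq A z‖ ≤ ep k / 25 := by
  unfold qq
  have hε := ep_pos hk
  calc ‖∑ m, uu A z m ^ 2‖ ≤ ∑ m : Fin k, (2 * ep k) ^ 2 := by
        refine (norm_sum_le _ _).trans (Finset.sum_le_sum fun m _ => ?_)
        rw [norm_pow]
        have h1 := uu_le hk hA z m
        gcongr
        linarith
    _ = 4 * (k * ep k) * ep k := by
        rw [Finset.sum_const, Finset.card_univ, Fintype.card_fin, nsmul_eq_mul]
        ring
    _ = _ := by
        rw [k_ep hk]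
        ring

/-- corners -/
lemma qq_DD (hk : 1 ≤ k) {A : Fin k × Fin k → ℂ} (hA : NI A) (z w h : Fin k → ℝ)
    (h00 : ‖z‖ ≤ ep k) (h10 : ‖z + w‖ ≤ ep k) (h01 : ‖z + h‖ ≤ ep k)
    (h11 : ‖z + w + h‖ ≤ ep k) :
    DD (qq A z) (qq A (z + w)) (qq A (z + h)) (qq A (z + w + h)) (2 / 25 * ‖w‖)
      (2 / 25 * ‖h‖) (8 * k * (‖w‖ * ‖h‖)) := by
  refine ⟨qq_diff hk hA z w h00 h10, ?_, qq_diff hk hA z h h00 h01,
    qq_diff hk hA (z + w) h h10 h11, qq_dd hk hA z w h⟩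
  have e : z + w + h = z + h + w := by abel
  rw [e]
  exact qq_diff hk hA (z + h) w h01 (by rwa [e] at h11)

lemma cpow_half (x : ℂ) : (x ^ ((2 : ℂ)⁻¹)) ^ 2 = x := by
  have := Complex.cpow_ofNat_inv_pow x 2
  simp

lemma re_cpow_half (x : ℂ) (hx : 1 / 2 ≤ x.re) : 1 / 2 ≤ (x ^ ((2 : ℂ)⁻¹)).re := by
  have hx0 : x ≠ 0 := by
    rintro rfl
    simp at hx
    linarith
  have h1 : 0 < (x ^ ((2 : ℂ)⁻¹)).re := by
    rw [Complex.cpow_def_of_ne_zero hx0, Complex.exp_re]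
    apply mul_pos (Real.exp_pos _)
    apply Real.cos_pos_of_mem_Ioo
    have h2 : (Complex.log x * (2 : ℂ)⁻¹).im = x.arg / 2 := by
      have : (2 : ℂ)⁻¹ = ((2⁻¹ : ℝ) : ℂ) := by push_cast; rfl
      rw [this, Complex.im_mul_ofReal, Complex.log_im]
      ring
    rw [h2]
    have h3 := Complex.abs_arg_lt_pi_div_two_iff.2 (Or.inl (by linarith : 0 < x.re))
    rw [abs_lt] at h3
    have := Real.pi_pos
    constructor <;> linarith
  have h2 := cpow_half x
  have h3 := congrArg Complex.re h2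
  rw [sq, Complex.mul_re] at h3
  nlinarith [sq_nonneg (x ^ ((2 : ℂ)⁻¹)).im]

lemma vv_sq (A : Fin k × Fin k → ℂ) (z : Fin k → ℝ) : vv A z ^ 2 = 1 - qq A z := cpow_half _

lemma one_sub_re (hk : 1 ≤ k) {A : Fin k × Fin k → ℂ} (hA : NI A) (z : Fin k → ℝ)
    (hz : ‖z‖ ≤ ep k) : 1 / 2 ≤ (1 - qq A z).re := by
  have h1 := qq_le hk hA z hz
  have h2 := ep_le hk
  have h3 := Complex.abs_re_le_norm (qq A z)
  have h4 := (abs_le.1 (h3.trans h1)).2
  rw [Complex.sub_re, Complex.one_re]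
  linarith

lemma vv_re (hk : 1 ≤ k) {A : Fin k × Fin k → ℂ} (hA : NI A) (z : Fin k → ℝ)
    (hz : ‖z‖ ≤ ep k) : 1 / 2 ≤ (vv A z).re := re_cpow_half _ (one_sub_re hk hA z hz)

lemma vv_one (hk : 1 ≤ k) {A : Fin k × Fin k → ℂ} (hA : NI A) (z : Fin k → ℝ)
    (hz : ‖z‖ ≤ ep k) : ‖vv A z - 1‖ ≤ ep k / 25 := by
  have h1 := sqrt_diff (vv A z) 1 (qq A z) 0 (vv_sq A z) (by simp) (vv_re hk hA z hz)
    (by norm_num)
  rw [sub_zero] at h1
  exact h1.trans (qq_le hk hA z hz)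

lemma vv_DD (hk : 1 ≤ k) {A : Fin k × Fin k → ℂ} (hA : NI A) (z w h : Fin k → ℝ)
    (h00 : ‖z‖ ≤ ep k) (h10 : ‖z + w‖ ≤ ep k) (h01 : ‖z + h‖ ≤ ep k)
    (h11 : ‖z + w + h‖ ≤ ep k) :
    DD (vv A z) (vv A (z + w)) (vv A (z + h)) (vv A (z + w + h)) (2 / 25 * ‖w‖)
      (2 / 25 * ‖h‖) (8 * k * (‖w‖ * ‖h‖) + 2 * (2 / 25 * ‖w‖) * (2 / 25 * ‖h‖)) :=
  (qq_DD hk hA z w h h00 h10 h01 h11).sqrt (vv_sq _ _) (vv_sq _ _) (vv_sq _ _) (vv_sq _ _)
    (vv_re hk hA _ h00) (vv_re hk hA _ h10) (vv_re hk hA _ h01) (vv_re hk hA _ h11)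

/-- the linear form -/
noncomputable def UU (A A0 : Fin k × Fin k → ℂ) (i : Fin k) (z : Fin k → ℝ) : ℂ :=
  uu A z i + uu A0 z i

/-- the difference quotient -/
noncomputable def Dq (A A0 : Fin k × Fin k → ℂ) (i j : Fin k) (z : Fin k → ℝ) : ℂ :=
  (z j * UU A A0 i z) * (vv A z + vv A0 z)⁻¹

lemma UU_add (A A0 : Fin k × Fin k → ℂ) (i : Fin k) (z w : Fin k → ℝ) :
    UU A A0 i (z + w) = UU A A0 i z + UU A A0 i w := by
  unfold UU
  rw [uu_add, uu_add]
  ring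

lemma UU_le (hk : 1 ≤ k) {A A0 : Fin k × Fin k → ℂ} (hA : NI A) (hA0 : NI A0) (i : Fin k)
    (z : Fin k → ℝ) : ‖UU A A0 i z‖ ≤ 4 * ‖z‖ := by
  have h1 := uu_le hk hA z i
  have h2 := uu_le hk hA0 z i
  exact (norm_add_le _ _).trans (by linarith)

lemma UU_sub (hk : 1 ≤ k) {A A0 : Fin k × Fin k → ℂ} (hA : NI A) (hA0 : NI A0) (i : Fin k)
    (z : Fin k → ℝ) : ‖UU A A0 i z - 2 * z i‖ ≤ ‖z‖ / 25 := by
  have h1 := uu_sub hk hA z i
  have h2 := uu_sub hk hA0 z i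
  have e : UU A A0 i z - 2 * z i = (uu A z i - z i) + (uu A0 z i - z i) := by
    unfold UU
    ring
  rw [e]
  exact (norm_add_le _ _).trans (by linarith)

lemma cc_diff (hk : 1 ≤ k) {A A0 : Fin k × Fin k → ℂ} (hA : NI A) (hA0 : NI A0) (i j : Fin k)
    (z w : Fin k → ℝ) (hz : ‖z‖ ≤ ep k) (hzw : ‖z + w‖ ≤ ep k) :
    ‖((z + w) j : ℂ) * UU A A0 i (z + w) - z j * UU A A0 i z‖ ≤ 8 * ep k * ‖w‖ := by
  have hε := ep_pos hk
  have e : ((z + w) j : ℂ) * UU A A0 i (z + w) - z j * UU A A0 i z =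
      w j * UU A A0 i (z + w) + z j * UU A A0 i w := by
    rw [UU_add]
    simp only [Pi.add_apply]
    push_cast
    ring
  rw [e]
  refine (norm_add_le _ _).trans ?_
  rw [norm_mul, norm_mul]
  have h1 := UU_le hk hA hA0 i (z + w)
  have h2 := UU_le hk hA hA0 i w
  have h3 := ncoord w j
  have h4 := ncoord z j
  calc ‖(w j : ℂ)‖ * ‖UU A A0 i (z + w)‖ + ‖(z j : ℂ)‖ * ‖UU A A0 i w‖
      ≤ ‖w‖ * (4 * ep k) + ep k * (4 * ‖w‖) := by
        gcongr
        · linarith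
        · linarith
    _ = _ := by ring

lemma D_est (hk : 1 ≤ k) {A A0 : Fin k × Fin k → ℂ} (hA : NI A) (hA0 : NI A0) (i j : Fin k)
    (z w h : Fin k → ℝ)
    (h00 : ‖z‖ ≤ ep k) (h10 : ‖z + w‖ ≤ ep k) (h01 : ‖z + h‖ ≤ ep k)
    (h11 : ‖z + w + h‖ ≤ ep k) :
    ‖(Dq A A0 i j (z + w + h) - Dq A A0 i j (z + w) - Dq A A0 i j (z + h) + Dq A A0 i j z) -
      (w j * h i + h j * w i : ℝ)‖ ≤ 1 / 4 * (‖w‖ * ‖h‖) := by
  have hε := ep_pos hk
  have hε1 := ep_le hk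
  have hkε := k_ep hk
  have hk1 : (1 : ℝ) ≤ k := by exact_mod_cast hk
  set a := ‖w‖ with ha
  set b := ‖h‖ with hb
  have ha0 : 0 ≤ a := norm_nonneg _
  have hb0 : 0 ≤ b := norm_nonneg _
  have hab : 0 ≤ a * b := by positivity
  have hS := ((vv_DD hk hA z w h h00 h10 h01 h11).add (vv_DD hk hA0 z w h h00 h10 h01 h11)).inv
    (one_le_add _ _ (vv_re hk hA _ h00) (vv_re hk hA0 _ h00))
    (one_le_add _ _ (vv_re hk hA _ h10) (vv_re hk hA0 _ h10))
    (one_le_add _ _ (vv_re hk hA _ h01) (vv_re hk hA0 _ h01))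
    (one_le_add _ _ (vv_re hk hA _ h11) (vv_re hk hA0 _ h11))
  have hη : ‖(vv A (z + w + h) + vv A0 (z + w + h))⁻¹ - 1 / 2‖ ≤ ep k / 25 := by
    have h1 := vv_one hk hA _ h11
    have h2 := vv_one hk hA0 _ h11
    have h3 := one_le_add _ _ (vv_re hk hA _ h11) (vv_re hk hA0 _ h11)
    set S := vv A (z + w + h) + vv A0 (z + w + h) with hSd
    have hS0 : S ≠ 0 := norm_pos_iff.1 (by linarith)
    have h4 : ‖2 - S‖ ≤ 2 * (ep k / 25) := by
      have : 2 - S = -((vv A (z + w + h) - 1) + (vv A0 (z + w + h) - 1)) := by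
        rw [hSd]
        ring
      rw [this, norm_neg]
      exact (norm_add_le _ _).trans (by linarith)
    have e : S⁻¹ - 1 / 2 = (2 - S) / (2 * S) := by field_simp
    rw [e, norm_div, norm_mul, Complex.norm_ofNat, div_le_iff₀ (by positivity)]
    nlinarith
  have hc0 : ‖(z j : ℂ) * UU A A0 i z‖ ≤ 4 * ep k ^ 2 := by
    rw [norm_mul]
    have h1 := UU_le hk hA hA0 i z
    have h2 := ncoord z j
    calc ‖(z j : ℂ)‖ * ‖UU A A0 i z‖ ≤ ep k * (4 * ep k) := by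
          gcongr
          · linarith
          · linarith
      _ = _ := by ring
  have hce : ((z + w + h) j : ℂ) * UU A A0 i (z + w + h) - ((z + w) j : ℂ) * UU A A0 i (z + w) -
      ((z + h) j : ℂ) * UU A A0 i (z + h) + z j * UU A A0 i z =
      w j * UU A A0 i h + h j * UU A A0 i w := by
    simp only [UU_add, Pi.add_apply]
    push_cast
    ring
  have hcz : ‖((z + w + h) j : ℂ) * UU A A0 i (z + w + h) -
      ((z + w) j : ℂ) * UU A A0 i (z + w) -
      ((z + h) j : ℂ) * UU A A0 i (z + h) + z j * UU A A0 i z‖ ≤ 8 * (a * b) := by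
    rw [hce]
    refine (norm_add_le _ _).trans ?_
    rw [norm_mul, norm_mul]
    have h1 := UU_le hk hA hA0 i h
    have h2 := UU_le hk hA hA0 i w
    have h3 := ncoord w j
    have h4 := ncoord h j
    calc ‖(w j : ℂ)‖ * ‖UU A A0 i h‖ + ‖(h j : ℂ)‖ * ‖UU A A0 i w‖
        ≤ a * (4 * b) + b * (4 * a) := by gcongr
      _ = _ := by ring
  have hC : DD ((z j : ℂ) * UU A A0 i z) (((z + w) j : ℂ) * UU A A0 i (z + w))
      (((z + h) j : ℂ) * UU A A0 i (z + h)) (((z + w + h) j : ℂ) * UU A A0 i (z + w + h))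
      (8 * ep k * a) (8 * ep k * b) (8 * (a * b)) := by
    refine ⟨cc_diff hk hA hA0 i j z w h00 h10, ?_, cc_diff hk hA hA0 i j z h h00 h01,
      cc_diff hk hA hA0 i j (z + w) h h10 h11, hcz⟩
    have e : z + w + h = z + h + w := by abel
    rw [e]
    exact cc_diff hk hA hA0 i j (z + h) w h01 (by rwa [e] at h11)
  have hmain := prod_est hS hη hc0 hC
  have hfin : ‖(((z + w + h) j : ℂ) * UU A A0 i (z + w + h) -
      ((z + w) j : ℂ) * UU A A0 i (z + w) -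
      ((z + h) j : ℂ) * UU A A0 i (z + h) + z j * UU A A0 i z) / 2 -
      (w j * h i + h j * w i : ℝ)‖ ≤ 1 / 25 * (a * b) := by
    rw [hce]
    have e : (w j * UU A A0 i h + h j * UU A A0 i w) / 2 - ((w j * h i + h j * w i : ℝ) : ℂ) =
        (w j * (UU A A0 i h - 2 * h i) + h j * (UU A A0 i w - 2 * w i)) / 2 := by
      push_cast
      ring
    rw [e, norm_div, Complex.norm_ofNat, div_le_iff₀ (by norm_num)]
    refine (norm_add_le _ _).trans ?_
    rw [norm_mul, norm_mul]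
    have h1 := UU_sub hk hA hA0 i h
    have h2 := UU_sub hk hA hA0 i w
    have h3 := ncoord w j
    have h4 := ncoord h j
    calc ‖(w j : ℂ)‖ * ‖UU A A0 i h - 2 * h i‖ + ‖(h j : ℂ)‖ * ‖UU A A0 i w - 2 * w i‖
        ≤ a * (b / 25) + b * (a / 25) := by gcongr
      _ = _ := by ring
  unfold Dq
  refine (norm_sub_le_norm_sub_add_norm_sub _ ((((z + w + h) j : ℂ) * UU A A0 i (z + w + h) -
      ((z + w) j : ℂ) * UU A A0 i (z + w) -
      ((z + h) j : ℂ) * UU A A0 i (z + h) + z j * UU A A0 i z) / 2) _).trans ?_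
  refine (add_le_add hmain hfin).trans ?_
  have g1 : ep k * (a * b) ≤ 1 / 100 * (a * b) := by gcongr
  have g2 : ep k ^ 2 * (k * (a * b)) = (k * ep k) * (ep k * (a * b)) := by ring
  have g3 : ep k ^ 2 * (a * b) ≤ ep k ^ 2 * (k * (a * b)) :=
    mul_le_mul_of_nonneg_left (by nlinarith) (sq_nonneg _)
  rw [hkε] at g2
  rw [← ha, ← hb]
  nlinarith

end Pool.Agent.H153R5
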