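import Mathlib
import Pool.Agent.H153R5.Phase
set_option autoImplicit false

/-! Oscillatory integrals in one matrix entry. -/

namespace Pool.Agent.H153R5

open Complex MeasureTheory Set

variable {k : ℕ}

/-- change one entry -/
noncomputable def ad (A : Fin k × Fin k → ℂ) (p : Fin k × Fin k) (ζ : ℂ) : Fin k × Fin k → ℂ :=
  fun p' => A p' + if p' = p then ζ else 0

lemma ad_ad (A : Fin k × Fin k → ℂ) (p : Fin k × Fin k) (ζ ξ : ℂ) :
    ad (ad A p ζ) p ξ = ad A p (ζ + ξ) := by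
  ext p'
  unfold ad
  by_cases h : p' = p
  · simp [h, add_assoc]
  · simp [h]

lemma uu_ad (A : Fin k × Fin k → ℂ) (p : Fin k × Fin k) (ζ : ℂ) (z : Fin k → ℝ) (m : Fin k) :
    uu (ad A p ζ) z m = uu A z m + if m = p.1 then ζ * z p.2 else 0 := by
  unfold uu ad
  simp only [add_mul, Finset.sum_add_distrib]
  congr 1
  by_cases h : m = p.1
  · rw [if_pos h]
    have : ∀ b : Fin k, (if ((m, b) : Fin k × Fin k) = p then ζ else 0) * (z b : ℂ) =
        if b = p.2 then ζ * z p.2 else 0 := by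
      intro b
      by_cases hb : b = p.2
      · have e : ((m, b) : Fin k × Fin k) = p := Prod.ext h hb
        rw [if_pos e, if_pos hb, hb]
      · have e : ((m, b) : Fin k × Fin k) ≠ p := fun h' => hb (congrArg Prod.snd h')
        rw [if_neg e, if_neg hb, zero_mul]
    simp only [this, Finset.sum_ite_eq', Finset.mem_univ, if_true]
  · rw [if_neg h]
    apply Finset.sum_eq_zero
    intro b _
    have e : ((m, b) : Fin k × Fin k) ≠ p := fun h' => h (congrArg Prod.fst h')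
    rw [if_neg e, zero_mul]

lemma qq_ad (A : Fin k × Fin k → ℂ) (p : Fin k × Fin k) (ζ : ℂ) (z : Fin k → ℝ) :
    qq (ad A p ζ) z - qq A z = ζ * (z p.2 * UU (ad A p ζ) A p.1 z) := by
  unfold qq
  rw [← Finset.sum_sub_distrib]
  have : ∀ m, uu (ad A p ζ) z m ^ 2 - uu A z m ^ 2 =
      if m = p.1 then ζ * (z p.2 * UU (ad A p ζ) A p.1 z) else 0 := by
    intro m
    by_cases h : m = p.1
    · rw [if_pos h, UU, h]
      have h1 := uu_ad A p ζ z p.1
      rw [if_pos rfl] at h1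
      rw [h1]
      ring
    · rw [if_neg h, uu_ad, if_neg h, add_zero, sub_self]
  simp only [this, Finset.sum_ite_eq', Finset.mem_univ, if_true]

/-- the four corner difference -/
noncomputable def G4 (A : Fin k × Fin k → ℂ) (z w h : Fin k → ℝ) : ℂ :=
  vv A (z + w + h) - vv A (z + w) - vv A (z + h) + vv A z

lemma vv_diff (hk : 1 ≤ k) {A : Fin k × Fin k → ℂ} (p : Fin k × Fin k) (ζ : ℂ) (hA : NI A)
    (hA' : NI (ad A p ζ)) (z : Fin k → ℝ) (hz : ‖z‖ ≤ ep k) :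
    vv (ad A p ζ) z - vv A z = -ζ * Dq (ad A p ζ) A p.1 p.2 z := by
  have h1 := vv_sq (ad A p ζ) z
  have h2 := vv_sq A z
  have h3 := qq_ad A p ζ z
  have h4 := one_le_add _ _ (vv_re hk hA' z hz) (vv_re hk hA z hz)
  have h5 : vv (ad A p ζ) z + vv A z ≠ 0 := norm_pos_iff.1 (by linarith)
  unfold Dq
  field_simp
  linear_combination h1 - h2 - h3

lemma G4_diff (hk : 1 ≤ k) {A : Fin k × Fin k → ℂ} (p : Fin k × Fin k) (ζ : ℂ) (hA : NI A)
    (hA' : NI (ad A p ζ)) (z w h : Fin k → ℝ)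
    (h00 : ‖z‖ ≤ ep k) (h10 : ‖z + w‖ ≤ ep k) (h01 : ‖z + h‖ ≤ ep k)
    (h11 : ‖z + w + h‖ ≤ ep k) :
    G4 (ad A p ζ) z w h - G4 A z w h = -ζ * (Dq (ad A p ζ) A p.1 p.2 (z + w + h) -
      Dq (ad A p ζ) A p.1 p.2 (z + w) - Dq (ad A p ζ) A p.1 p.2 (z + h) +
        Dq (ad A p ζ) A p.1 p.2 z) := by
  unfold G4
  linear_combination vv_diff hk p ζ hA hA' _ h11 - vv_diff hk p ζ hA hA' _ h10 -
    vv_diff hk p ζ hA hA' _ h01 + vv_diff hk p ζ hA hA' _ h00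

/-- complexification -/
def Lc (L : Fin k × Fin k → ℝ) : Fin k × Fin k → ℂ := fun p => (L p : ℂ)

/-- real near identity -/
def NR (L : Fin k × Fin k → ℝ) : Prop :=
  ∀ m b, |L (m, b) - (if m = b then 1 else 0)| ≤ ep k

/-- the squared norm of the image, real form -/
def qr (L : Fin k × Fin k → ℝ) (z : Fin k → ℝ) : ℝ := ∑ m, (∑ b, L (m, b) * z b) ^ 2

lemma qq_Lc (L : Fin k × Fin k → ℝ) (z : Fin k → ℝ) : qq (Lc L) z = (qr L z : ℂ) := by
  unfold qq uu qr Lc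
  push_cast
  rfl

lemma vv_Lc (L : Fin k × Fin k → ℝ) (z : Fin k → ℝ) (h : qr L z ≤ 1) :
    vv (Lc L) z = (Real.sqrt (1 - qr L z) : ℂ) := by
  unfold vv
  rw [qq_Lc, Real.sqrt_eq_rpow, Complex.ofReal_cpow (by linarith)]
  push_cast
  norm_num

lemma NI_ad (hk : 1 ≤ k) {L : Fin k × Fin k → ℝ} (hL : NR L) (p : Fin k × Fin k)
    (hp : L p = if p.1 = p.2 then 1 else 0) (ζ : ℂ) (h1 : |ζ.re| ≤ ep k) (h2 : |ζ.im| ≤ ep k) :
    NI (ad (Lc L) p ζ) := by
  have hε := ep_pos hk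
  intro m b
  unfold ad
  by_cases h : (m, b) = p
  · subst h
    rw [if_pos rfl]
    simp only at hp
    have : Lc L (m, b) = if m = b then (1 : ℂ) else 0 := by
      unfold Lc
      rw [hp]
      split_ifs <;> simp
    rw [this]
    have e : (if m = b then (1 : ℂ) else 0) + ζ - (if m = b then (1 : ℂ) else 0) = ζ := by ring
    rw [e]
    exact (Complex.norm_le_abs_re_add_abs_im ζ).trans (by linarith)
  · rw [if_neg h, add_zero]
    have h3 := hL m b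
    have : Lc L (m, b) - (if m = b then (1 : ℂ) else 0) =
        ((L (m, b) - (if m = b then 1 else 0) : ℝ) : ℂ) := by
      unfold Lc
      split_ifs <;> simp
    rw [this, Complex.norm_real, Real.norm_eq_abs]
    linarith

lemma Lc_ad (L : Fin k × Fin k → ℝ) (p : Fin k × Fin k) (x : ℝ) :
    ad (Lc L) p x = Lc (fun p' => L p' + if p' = p then x else 0) := by
  ext p'
  unfold ad Lc
  by_cases h : p' = p
  · simp [h]
  · simp [h]

lemma vv_Lc_im (hk : 1 ≤ k) (L : Fin k × Fin k → ℝ) (h : NI (Lc L)) (z : Fin k → ℝ)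
    (hz : ‖z‖ ≤ ep k) : (vv (Lc L) z).im = 0 := by
  have h1 := one_sub_re hk h z hz
  rw [qq_Lc] at h1
  simp only [sub_re, one_re, ofReal_re] at h1
  rw [vv_Lc L z (by linarith), Complex.ofReal_im]

lemma G4_im (hk : 1 ≤ k) (L : Fin k × Fin k → ℝ) (h : NI (Lc L)) (z w h' : Fin k → ℝ)
    (h00 : ‖z‖ ≤ ep k) (h10 : ‖z + w‖ ≤ ep k) (h01 : ‖z + h'‖ ≤ ep k)
    (h11 : ‖z + w + h'‖ ≤ ep k) : (G4 (Lc L) z w h').im = 0 := by
  unfold G4
  simp only [sub_im, add_im, vv_Lc_im hk L h _ h00, vv_Lc_im hk L h _ h10,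
    vv_Lc_im hk L h _ h01, vv_Lc_im hk L h _ h11]
  norm_num

lemma G4_imag (hk : 1 ≤ k) {L : Fin k × Fin k → ℝ} (hL : NR L) (p : Fin k × Fin k)
    (hp : L p = if p.1 = p.2 then 1 else 0) (x y : ℝ) (hx : |x| ≤ ep k) (hy : |y| ≤ ep k)
    (z w h : Fin k → ℝ)
    (h00 : ‖z‖ ≤ ep k) (h10 : ‖z + w‖ ≤ ep k) (h01 : ‖z + h‖ ≤ ep k)
    (h11 : ‖z + w + h‖ ≤ ep k) :
    ∃ D : ℝ, |D - (w p.2 * h p.1 + h p.2 * w p.1)| ≤ 1 / 4 * (‖w‖ * ‖h‖) ∧
      (G4 (ad (Lc L) p (x + y * I)) z w h).im = -(y * D) := by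
  have hN1 : NI (ad (Lc L) p (x + y * I)) :=
    NI_ad hk hL p hp _ (by simpa using hx) (by simpa using hy)
  have hN0 : NI (ad (Lc L) p (x : ℂ)) :=
    NI_ad hk hL p hp _ (by simpa using hx) (by simpa using (ep_pos hk).le)
  have e1 : ad (Lc L) p (x + y * I) = ad (ad (Lc L) p (x : ℂ)) p (y * I) := (ad_ad _ _ _ _).symm
  have h1 := G4_diff hk p (y * I) hN0 (by rw [← e1]; exact hN1) z w h h00 h10 h01 h11
  rw [← e1] at h1
  set E := (Dq (ad (Lc L) p (x + y * I)) (ad (Lc L) p (x : ℂ)) p.1 p.2 (z + w + h) -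
      Dq (ad (Lc L) p (x + y * I)) (ad (Lc L) p (x : ℂ)) p.1 p.2 (z + w) -
      Dq (ad (Lc L) p (x + y * I)) (ad (Lc L) p (x : ℂ)) p.1 p.2 (z + h) +
        Dq (ad (Lc L) p (x + y * I)) (ad (Lc L) p (x : ℂ)) p.1 p.2 z) with hE
  have h2 := D_est hk hN1 hN0 p.1 p.2 z w h h00 h10 h01 h11
  refine ⟨E.re, ?_, ?_⟩
  · have h3 := (Complex.abs_re_le_norm _).trans h2
    rw [Complex.sub_re, Complex.ofReal_re] at h3
    exact h3
  · have h3 := congrArg Complex.im h1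
    rw [Lc_ad] at h3
    rw [Complex.sub_im, G4_im hk _ (by rw [← Lc_ad]; exact hN0) z w h h00 h10 h01 h11] at h3
    simp only [neg_mul, neg_im, mul_im, mul_re, ofReal_re, ofReal_im, I_re, I_im, mul_zero,
      mul_one, zero_mul, sub_zero, zero_add, add_zero, sub_self] at h3
    linarith

/-- the oscillating factor -/
noncomputable def osc (t : ℝ) (A : Fin k × Fin k → ℂ) (z w h : Fin k → ℝ) : ℂ :=
  cexp (-(2 * Real.pi * t) * I * G4 A z w h)

lemma osc_norm (t : ℝ) (A : Fin k × Fin k → ℂ) (z w h : Fin k → ℝ) :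
    ‖osc t A z w h‖ = Real.exp (2 * Real.pi * t * (G4 A z w h).im) := by
  unfold osc
  rw [Complex.norm_exp]
  congr 1
  have : (-(2 * (Real.pi : ℂ) * t) * I * G4 A z w h) =
      ((-(2 * Real.pi * t) : ℝ) : ℂ) * (I * G4 A z w h) := by push_cast; ring
  rw [this, Complex.re_ofReal_mul]
  simp only [mul_re, I_re, I_im, zero_mul, one_mul, zero_sub]
  ring

lemma G4_diffb (hk : 1 ≤ k) {L : Fin k × Fin k → ℝ} (hL : NR L) (p : Fin k × Fin k)
    (hp : L p = if p.1 = p.2 then 1 else 0) (z : Fin k → ℝ) (hz : ‖z‖ ≤ ep k) :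
    DifferentiableOn ℂ (fun ζ : ℂ => vv (ad (Lc L) p ζ) z)
      {ζ | |ζ.re| ≤ ep k ∧ |ζ.im| ≤ ep k} := by
  unfold vv
  have hq : Differentiable ℂ fun ζ : ℂ => qq (ad (Lc L) p ζ) z := by
    unfold qq
    simp only [uu_ad]
    apply Differentiable.fun_sum
    intro m _
    apply Differentiable.pow
    by_cases h : m = p.1
    · simp only [if_pos h]
      fun_prop
    · simp only [if_neg h]
      fun_prop
  intro ζ hζ
  apply DifferentiableWithinAt.cpow_const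
  · exact ((differentiable_const _).sub hq).differentiableAt.differentiableWithinAt
  · have := one_sub_re hk (NI_ad hk hL p hp ζ hζ.1 hζ.2) z hz
    left
    linarith

lemma osc_diffb (hk : 1 ≤ k) {L : Fin k × Fin k → ℝ} (hL : NR L) (p : Fin k × Fin k)
    (hp : L p = if p.1 = p.2 then 1 else 0) (t : ℝ) (z w h : Fin k → ℝ)
    (h00 : ‖z‖ ≤ ep k) (h10 : ‖z + w‖ ≤ ep k) (h01 : ‖z + h‖ ≤ ep k)
    (h11 : ‖z + w + h‖ ≤ ep k) :
    DifferentiableOn ℂ (fun ζ : ℂ => osc t (ad (Lc L) p ζ) z w h)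
      {ζ | |ζ.re| ≤ ep k ∧ |ζ.im| ≤ ep k} := by
  unfold osc G4
  apply DifferentiableOn.cexp
  apply DifferentiableOn.const_mul
  exact ((((G4_diffb hk hL p hp _ h11).sub (G4_diffb hk hL p hp _ h10)).sub
    (G4_diffb hk hL p hp _ h01)).add (G4_diffb hk hL p hp _ h00))

theorem line_bound (hk : 1 ≤ k) (N : ℕ) {L : Fin k × Fin k → ℝ} (hL : NR L) (p : Fin k × Fin k)
    (hp : L p = if p.1 = p.2 then 1 else 0) (t : ℝ) (ht : t ≠ 0) (z w h : Fin k → ℝ)
    (h00 : ‖z‖ ≤ ep k) (h10 : ‖z + w‖ ≤ ep k) (h01 : ‖z + h‖ ≤ ep k)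
    (h11 : ‖z + w + h‖ ≤ ep k) (hw : w ≠ 0) (hh : h ≠ 0)
    (hΘ : 1 / 2 * (‖w‖ * ‖h‖) ≤ |w p.2 * h p.1 + h p.2 * w p.1|) :
    ‖∫ x in (-(ep k))..(ep k), (((ep k ^ 2 - x ^ 2) ^ N : ℝ) : ℂ) *
        osc t (ad (Lc L) p x) z w h‖ ≤
      CN N (ep k) / (Real.pi / 2 * (|t| * (‖w‖ * ‖h‖))) ^ (N + 1) := by
  have hε := ep_pos hk
  have hw0 : 0 < ‖w‖ := norm_pos_iff.2 hw
  have hh0 : 0 < ‖h‖ := norm_pos_iff.2 hh
  have ht0 : 0 < |t| := abs_pos.2 ht
  have hpi := Real.pi_pos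
  have hab : 0 < ‖w‖ * ‖h‖ := by positivity
  set Θ := w p.2 * h p.1 + h p.2 * w p.1 with hΘd
  have hdif := osc_diffb hk hL p hp t z w h h00 h10 h01 h11
  rcases lt_trichotomy (t * Θ) 0 with hc | hc | hc
  · -- reflect
    have hrefl : ∫ x in (-(ep k))..(ep k), (((ep k ^ 2 - x ^ 2) ^ N : ℝ) : ℂ) *
        osc t (ad (Lc L) p x) z w h =
        ∫ x in (-(ep k))..(ep k), (((ep k ^ 2 - x ^ 2) ^ N : ℝ) : ℂ) *
          (fun ζ : ℂ => osc t (ad (Lc L) p (-ζ)) z w h) x := by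
      have h1 := intervalIntegral.integral_comp_neg (a := -(ep k)) (b := ep k)
        (fun x : ℝ => (((ep k ^ 2 - x ^ 2) ^ N : ℝ) : ℂ) * osc t (ad (Lc L) p x) z w h)
      rw [neg_neg] at h1
      rw [← h1]
      apply intervalIntegral.integral_congr
      intro x _
      simp only [neg_sq, Complex.ofReal_neg]
    rw [hrefl]
    apply contour (ep k) hε N (fun ζ : ℂ => osc t (ad (Lc L) p (-ζ)) z w h)
      (Real.pi / 2 * (|t| * (‖w‖ * ‖h‖))) (by positivity)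
    · have hm : MapsTo (fun ζ : ℂ => -ζ) {ζ : ℂ | |ζ.re| ≤ ep k ∧ |ζ.im| ≤ ep k}
          {ζ : ℂ | |ζ.re| ≤ ep k ∧ |ζ.im| ≤ ep k} := by
        intro ζ hζ
        simpa using hζ
      exact hdif.comp (by fun_prop) hm
    · intro x y hx hy hya
      obtain ⟨D, hD, hG⟩ := G4_imag hk hL p hp (-x) (-y) (by rwa [abs_neg])
        (by rw [abs_neg, abs_of_nonneg hy]; exact hya) z w h h00 h10 h01 h11
      have e : -((x : ℂ) + y * I) = ((-x : ℝ) : ℂ) + ((-y : ℝ) : ℂ) * I := by push_cast; ring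
      rw [e, osc_norm, hG, Real.exp_le_exp]
      have h1 : t * D ≤ -(1 / 4 * (|t| * (‖w‖ * ‖h‖))) := by
        have a1 : t * Θ = -(|t| * |Θ|) := by
          rw [← abs_mul, abs_of_neg hc, neg_neg]
        have a2 : t * (D - Θ) ≤ |t| * (1 / 4 * (‖w‖ * ‖h‖)) := by
          calc t * (D - Θ) ≤ |t * (D - Θ)| := le_abs_self _
            _ = |t| * |D - Θ| := abs_mul _ _
            _ ≤ _ := by gcongr
        have a3 : |t| * (1 / 2 * (‖w‖ * ‖h‖)) ≤ |t| * |Θ| := by gcongr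
        nlinarith
      have h2 : 2 * Real.pi * t * (-(-y * D)) = 2 * Real.pi * (y * (t * D)) := by ring
      rw [h2]
      have h3 : y * (t * D) ≤ y * (-(1 / 4 * (|t| * (‖w‖ * ‖h‖)))) :=
        mul_le_mul_of_nonneg_left h1 hy
      nlinarith
  · exfalso
    rcases mul_eq_zero.1 hc with h1 | h1
    · exact ht h1
    · rw [h1, abs_zero] at hΘ
      linarith
  · apply contour (ep k) hε N (fun ζ : ℂ => osc t (ad (Lc L) p ζ) z w h)
      (Real.pi / 2 * (|t| * (‖w‖ * ‖h‖))) (by positivity) hdif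
    intro x y hx hy hya
    obtain ⟨D, hD, hG⟩ := G4_imag hk hL p hp x y hx
      (by rw [abs_of_nonneg hy]; exact hya) z w h h00 h10 h01 h11
    rw [osc_norm, hG, Real.exp_le_exp]
    have h1 : 1 / 4 * (|t| * (‖w‖ * ‖h‖)) ≤ t * D := by
      have a1 : t * Θ = |t| * |Θ| := by
        rw [← abs_mul, abs_of_pos hc]
      have a2 : -(|t| * (1 / 4 * (‖w‖ * ‖h‖))) ≤ t * (D - Θ) := by
        have : |t * (D - Θ)| ≤ |t| * (1 / 4 * (‖w‖ * ‖h‖)) := by
          rw [abs_mul]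
          gcongr
        exact (abs_le.1 this).1
      have a3 : |t| * (1 / 2 * (‖w‖ * ‖h‖)) ≤ |t| * |Θ| := by gcongr
      nlinarith
    have h2 : 2 * Real.pi * t * (-(y * D)) = -(2 * Real.pi * (y * (t * D))) := by ring
    rw [h2]
    have h3 : y * (1 / 4 * (|t| * (‖w‖ * ‖h‖))) ≤ y * (t * D) :=
      mul_le_mul_of_nonneg_left h1 hy
    nlinarith

end Pool.Agent.H153R5
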