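import Mathlib
import Pool.Agent.H153R5.Line
set_option autoImplicit false

/-! The kernel bound. -/

namespace Pool.Agent.H153R5

open Complex MeasureTheory Set

variable {k : ℕ}

/-- single variable cut-off -/
noncomputable def om (k N : ℕ) (x : ℝ) : ℝ := if |x| ≤ ep k then (ep k ^ 2 - x ^ 2) ^ N else 0

/-- identity matrix -/
def dl (p : Fin k × Fin k) : ℝ := if p.1 = p.2 then 1 else 0

/-- the weight -/
noncomputable def Wt (N : ℕ) (L : Fin k × Fin k → ℝ) : ℝ := ∏ p, om k N (L p - dl p)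

lemma om_nonneg (k N : ℕ) (x : ℝ) : 0 ≤ om k N x := by
  unfold om
  split_ifs with h
  · have := sq_le_sq' (abs_le.1 h).1 (abs_le.1 h).2
    exact pow_nonneg (by linarith) _
  · exact le_rfl

lemma om_le_one (hk : 1 ≤ k) (N : ℕ) (x : ℝ) : om k N x ≤ 1 := by
  unfold om
  split_ifs with h
  · have h1 := sq_le_sq' (abs_le.1 h).1 (abs_le.1 h).2
    have h2 := ep_le hk
    have h3 := ep_pos hk
    apply pow_le_one₀
    · linarith
    · nlinarith [sq_nonneg x]
  · exact zero_le_one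

lemma om_meas (k N : ℕ) : Measurable (om k N) := by
  unfold om
  refine Measurable.ite ?_ (by fun_prop) measurable_const
  exact (isClosed_le continuous_abs continuous_const).measurableSet

lemma om_eq (k N : ℕ) :
    om k N = (Icc (-(ep k)) (ep k)).indicator fun x => (ep k ^ 2 - x ^ 2) ^ N := by
  ext x
  unfold om
  by_cases h : |x| ≤ ep k
  · rw [if_pos h, indicator_of_mem (show x ∈ Icc (-(ep k)) (ep k) from abs_le.1 h)]
  · rw [if_neg h, indicator_of_notMem (show x ∉ Icc (-(ep k)) (ep k) from fun h' => h (abs_le.2 h'))]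

lemma om_int (k N : ℕ) : Integrable (om k N) := by
  rw [om_eq, integrable_indicator_iff measurableSet_Icc]
  exact (by fun_prop : Continuous fun x : ℝ => (ep k ^ 2 - x ^ 2) ^ N).integrableOn_Icc

lemma om_integral (hk : 1 ≤ k) (N : ℕ) : ∫ x, om k N x ≤ 1 := by
  have hε := ep_pos hk
  have h2 := ep_le hk
  have h1 : ∫ x, om k N x = ∫ x in Icc (-(ep k)) (ep k), om k N x := by
    rw [setIntegral_eq_integral_of_forall_compl_eq_zero]
    intro x hx
    rw [om_eq, indicator_of_notMem hx]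
  rw [h1]
  have h3 : ∫ x in Icc (-(ep k)) (ep k), om k N x ≤ ∫ x in Icc (-(ep k)) (ep k), (1 : ℝ) := by
    apply setIntegral_mono_on (om_int k N).integrableOn (by simp) measurableSet_Icc
    intro x _
    exact om_le_one hk N x
  refine h3.trans ?_
  rw [setIntegral_const, Measure.real, Real.volume_Icc, ENNReal.toReal_ofReal (by linarith)]
  simp
  linarith

lemma Wt_nonneg (N : ℕ) (L : Fin k × Fin k → ℝ) : 0 ≤ Wt N L :=
  Finset.prod_nonneg fun _ _ => om_nonneg _ _ _

lemma Wt_le_one (hk : 1 ≤ k) (N : ℕ) (L : Fin k × Fin k → ℝ) : Wt N L ≤ 1 :=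
  Finset.prod_le_one (fun _ _ => om_nonneg _ _ _) fun _ _ => om_le_one hk _ _

lemma Wt_meas (N : ℕ) : Measurable (Wt (k := k) N) := by
  unfold Wt
  exact Finset.measurable_prod _ fun p _ => (om_meas k N).comp (by fun_prop)

lemma Wt_NR (N : ℕ) (L : Fin k × Fin k → ℝ) (h : Wt N L ≠ 0) : NR L := by
  intro m b
  have h1 : om k N (L (m, b) - dl (m, b)) ≠ 0 := by
    intro h2
    exact h (Finset.prod_eq_zero (Finset.mem_univ (m, b)) h2)
  by_contra hc
  apply h1
  unfold om
  rw [if_neg]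
  exact hc

lemma Wt_int (N : ℕ) : Integrable (Wt (k := k) N) := by
  unfold Wt
  rw [volume_pi]
  exact Integrable.fintype_prod (f := fun p x => om k N (x - dl p))
    fun p => (om_int k N).comp_sub_right (dl p)

lemma NR_NI (hk : 1 ≤ k) {L : Fin k × Fin k → ℝ} (h : NR L) : NI (Lc L) := by
  have hε := ep_pos hk
  intro m b
  have h3 := h m b
  have : Lc L (m, b) - (if m = b then (1 : ℂ) else 0) =
      ((L (m, b) - (if m = b then 1 else 0) : ℝ) : ℂ) := by
    unfold Lc
    split_ifs <;> simp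
  rw [this, Complex.norm_real, Real.norm_eq_abs]
  linarith

lemma vv_meas (z : Fin k → ℝ) : Measurable fun L : Fin k × Fin k → ℝ => vv (Lc L) z := by
  unfold vv qq uu Lc
  apply Measurable.pow_const
  apply measurable_const.sub
  apply Finset.measurable_sum
  intro m _
  apply Measurable.pow_const
  apply Finset.measurable_sum
  intro b _
  exact (Complex.measurable_ofReal.comp (measurable_pi_apply _)).mul measurable_const

lemma osc_meas (t : ℝ) (z w h : Fin k → ℝ) :
    Measurable fun L : Fin k × Fin k → ℝ => osc t (Lc L) z w h := by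
  unfold osc G4
  exact Complex.measurable_exp.comp (measurable_const.mul
    ((((vv_meas _).sub (vv_meas _)).sub (vv_meas _)).add (vv_meas _)))

lemma osc_one (hk : 1 ≤ k) (t : ℝ) {L : Fin k × Fin k → ℝ} (hL : NR L) (z w h : Fin k → ℝ)
    (h00 : ‖z‖ ≤ ep k) (h10 : ‖z + w‖ ≤ ep k) (h01 : ‖z + h‖ ≤ ep k)
    (h11 : ‖z + w + h‖ ≤ ep k) : ‖osc t (Lc L) z w h‖ = 1 := by
  rw [osc_norm, G4_im hk L (NR_NI hk hL) z w h h00 h10 h01 h11, mul_zero, Real.exp_zero]

lemma FL_le (hk : 1 ≤ k) (N : ℕ) (t : ℝ) (L : Fin k × Fin k → ℝ) (z w h : Fin k → ℝ)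
    (h00 : ‖z‖ ≤ ep k) (h10 : ‖z + w‖ ≤ ep k) (h01 : ‖z + h‖ ≤ ep k)
    (h11 : ‖z + w + h‖ ≤ ep k) : ‖(Wt N L : ℂ) * osc t (Lc L) z w h‖ ≤ Wt N L := by
  by_cases h0 : Wt N L = 0
  · rw [h0]
    simp
  · rw [norm_mul, osc_one hk t (Wt_NR N L h0) z w h h00 h10 h01 h11, mul_one, Complex.norm_real,
      Real.norm_of_nonneg (Wt_nonneg N L)]

lemma FL_int (hk : 1 ≤ k) (N : ℕ) (t : ℝ) (z w h : Fin k → ℝ)
    (h00 : ‖z‖ ≤ ep k) (h10 : ‖z + w‖ ≤ ep k) (h01 : ‖z + h‖ ≤ ep k)
    (h11 : ‖z + w + h‖ ≤ ep k) :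
    Integrable fun L : Fin k × Fin k → ℝ => (Wt N L : ℂ) * osc t (Lc L) z w h := by
  refine (Wt_int N).mono' ?_ (ae_of_all _ fun L => FL_le hk N t L z w h h00 h10 h01 h11)
  exact ((Complex.measurable_ofReal.comp (Wt_meas N)).mul (osc_meas t z w h)).aestronglyMeasurable

lemma pigeon (hk : 1 ≤ k) (w h : Fin k → ℝ) :
    ∃ p : Fin k × Fin k, 1 / 2 * (‖w‖ * ‖h‖) ≤ |w p.2 * h p.1 + h p.2 * w p.1| := by
  have : Nonempty (Fin k) := ⟨⟨0, hk⟩⟩
  obtain ⟨a, ha⟩ := Finite.exists_max (fun i => ‖w i‖)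
  obtain ⟨b, hb⟩ := Finite.exists_max (fun i => ‖h i‖)
  have hwa : ‖w‖ = |w a| := by
    apply le_antisymm
    · exact (pi_norm_le_iff_of_nonneg (norm_nonneg _)).2 ha
    · exact norm_le_pi_norm w a
  have hhb : ‖h‖ = |h b| := by
    apply le_antisymm
    · exact (pi_norm_le_iff_of_nonneg (norm_nonneg _)).2 hb
    · exact norm_le_pi_norm h b
  have h1 : |w b| ≤ |w a| := ha b
  have h2 : |h a| ≤ |h b| := hb a
  rw [hwa, hhb]
  by_cases hc : |w b| * |h a| ≤ 1 / 2 * (|w a| * |h b|)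
  · refine ⟨(b, a), ?_⟩
    simp only
    have h3 := abs_sub_abs_le_abs_sub (w a * h b) (-(h a * w b))
    rw [sub_neg_eq_add, abs_neg, abs_mul, abs_mul] at h3
    nlinarith
  · push Not at hc
    refine ⟨(b, b), ?_⟩
    simp only
    have e : w b * h b + h b * w b = 2 * (w b * h b) := by ring
    rw [e, abs_mul, abs_two, abs_mul]
    have h3 : |w b| * |h a| ≤ |w b| * |h b| := mul_le_mul_of_nonneg_left h2 (abs_nonneg _)
    have h4 : 0 ≤ |w b| * |h b| := by positivity
    linarith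

/-- the kernel -/
noncomputable def KK (N : ℕ) (t : ℝ) (z w h : Fin k → ℝ) : ℂ :=
  ∫ L : Fin k × Fin k → ℝ, (Wt N L : ℂ) * osc t (Lc L) z w h

/-- equality as a predicate -/
def Eqp (p q : Fin k × Fin k) : Prop := q = p

instance (p : Fin k × Fin k) : DecidablePred (Eqp p) := fun q => inferInstanceAs (Decidable (q = p))

lemma fu {ι : Type} [hf : Fintype ι] [hu : Unique ι] :
    MeasurePreserving (MeasurableEquiv.funUnique ι ℝ) (volume : Measure (ι → ℝ)) volume := by
  have h := volume_preserving_funUnique ι ℝ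
  have e : hf = Unique.fintype := Subsingleton.elim _ _
  subst e
  exact h

/-- the one point subtype -/
@[reducible] def uniqEqp (p : Fin k × Fin k) : Unique {q : Fin k × Fin k // Eqp p q} :=
  ⟨⟨⟨p, rfl⟩⟩, fun q => Subtype.ext q.2⟩

/-- insertion of one coordinate -/
def ins (p : Fin k × Fin k) (s : ℝ) (b : {q : Fin k × Fin k // ¬ Eqp p q} → ℝ) :
    Fin k × Fin k → ℝ := fun q => if h : Eqp p q then s else b ⟨q, h⟩

lemma ins_add (p : Fin k × Fin k) (s x : ℝ) (b : {q : Fin k × Fin k // ¬ Eqp p q} → ℝ) :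
    ins p (s + x) b = fun p' => ins p s b p' + if p' = p then x else 0 := by
  ext q
  unfold ins
  by_cases h : q = p
  · have h' : Eqp p q := h
    simp only [dif_pos h', if_pos h]
  · have h' : ¬ Eqp p q := h
    simp only [dif_neg h', if_neg h, add_zero]

lemma Wt_ins (N : ℕ) (p : Fin k × Fin k) (s : ℝ) (b : {q : Fin k × Fin k // ¬ Eqp p q} → ℝ) :
    Wt N (ins p s b) = om k N (s - dl p) * ∏ q, om k N (b q - dl q.1) := by
  unfold Wt
  rw [← Fintype.prod_subtype_mul_prod_subtype (Eqp p)]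
  congr 1
  · have hu := uniqEqp p
    rw [Fintype.prod_subsingleton _ (⟨p, rfl⟩ : {q : Fin k × Fin k // Eqp p q})]
    unfold ins
    rw [dif_pos (show Eqp p p from rfl)]
  · apply Finset.prod_congr rfl
    intro q _
    unfold ins
    rw [dif_neg q.2]

lemma inner_bound (hk : 1 ≤ k) (N : ℕ) (p : Fin k × Fin k) (t : ℝ) (ht : t ≠ 0)
    (z w h : Fin k → ℝ)
    (h00 : ‖z‖ ≤ ep k) (h10 : ‖z + w‖ ≤ ep k) (h01 : ‖z + h‖ ≤ ep k)
    (h11 : ‖z + w + h‖ ≤ ep k) (hw : w ≠ 0) (hh : h ≠ 0)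
    (hΘ : 1 / 2 * (‖w‖ * ‖h‖) ≤ |w p.2 * h p.1 + h p.2 * w p.1|)
    (b : {q : Fin k × Fin k // ¬ Eqp p q} → ℝ) :
    ‖∫ s : ℝ, (Wt N (ins p s b) : ℂ) * osc t (Lc (ins p s b)) z w h‖ ≤
      (∏ q, om k N (b q - dl q.1)) *
        (CN N (ep k) / (Real.pi / 2 * (|t| * (‖w‖ * ‖h‖))) ^ (N + 1)) := by
  have hε := ep_pos hk
  set W' := ∏ q, om k N (b q - dl q.1) with hW'
  have hW0 : 0 ≤ W' := Finset.prod_nonneg fun _ _ => om_nonneg _ _ _
  have h1 : ∫ s : ℝ, (Wt N (ins p s b) : ℂ) * osc t (Lc (ins p s b)) z w h =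
      (W' : ℂ) * ∫ x : ℝ, (om k N x : ℂ) * osc t (ad (Lc (ins p (dl p) b)) p x) z w h := by
    rw [← integral_add_left_eq_self (μ := (volume : Measure ℝ)) _ (dl p), ← integral_const_mul]
    apply integral_congr_ae
    refine ae_of_all _ fun x => ?_
    simp only
    rw [Wt_ins, Lc_ad, ← ins_add, ← hW']
    have : dl p + x - dl p = x := by ring
    rw [this]
    push_cast
    ring
  have h2 : ∫ x : ℝ, (om k N x : ℂ) * osc t (ad (Lc (ins p (dl p) b)) p x) z w h =
      ∫ x in (-(ep k))..(ep k), (((ep k ^ 2 - x ^ 2) ^ N : ℝ) : ℂ) *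
        osc t (ad (Lc (ins p (dl p) b)) p x) z w h := by
    rw [intervalIntegral.integral_of_le (by linarith), ← integral_Icc_eq_integral_Ioc,
      ← integral_indicator measurableSet_Icc]
    apply integral_congr_ae
    refine ae_of_all _ fun x => ?_
    simp only
    rw [om_eq]
    by_cases hx : x ∈ Icc (-(ep k)) (ep k)
    · rw [indicator_of_mem hx, indicator_of_mem hx]
    · rw [indicator_of_notMem hx, indicator_of_notMem hx]
      simp
  rw [h1, h2, norm_mul, Complex.norm_real, Real.norm_of_nonneg hW0]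
  by_cases h0 : W' = 0
  · rw [h0, zero_mul, zero_mul]
  · apply mul_le_mul_of_nonneg_left _ hW0
    apply line_bound hk N _ p _ t ht z w h h00 h10 h01 h11 hw hh hΘ
    · intro m b'
      by_cases hq : (m, b') = p
      · unfold ins
        rw [dif_pos (show Eqp p (m, b') from hq)]
        have : dl p = if m = b' then (1 : ℝ) else 0 := by
          rw [← hq]
          rfl
        rw [this, sub_self, abs_zero]
        exact hε.le
      · unfold ins
        rw [dif_neg (show ¬ Eqp p (m, b') from hq)]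
        have h3 : om k N (b ⟨(m, b'), hq⟩ - dl (m, b')) ≠ 0 := by
          intro h4
          exact h0 (Finset.prod_eq_zero (Finset.mem_univ (⟨(m, b'), hq⟩ : {q // ¬ Eqp p q})) h4)
        by_contra hc
        apply h3
        unfold om
        rw [if_neg]
        exact hc
    · unfold ins
      rw [dif_pos (show Eqp p p from rfl)]
      rfl

theorem K_bound (hk : 1 ≤ k) (N : ℕ) (t : ℝ) (ht : t ≠ 0) (z w h : Fin k → ℝ)
    (h00 : ‖z‖ ≤ ep k) (h10 : ‖z + w‖ ≤ ep k) (h01 : ‖z + h‖ ≤ ep k)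
    (h11 : ‖z + w + h‖ ≤ ep k) (hw : w ≠ 0) (hh : h ≠ 0) :
    ‖KK N t z w h‖ ≤ CN N (ep k) / (Real.pi / 2 * (|t| * (‖w‖ * ‖h‖))) ^ (N + 1) := by
  have hε := ep_pos hk
  obtain ⟨p, hp⟩ := pigeon hk w h
  set C := CN N (ep k) / (Real.pi / 2 * (|t| * (‖w‖ * ‖h‖))) ^ (N + 1) with hC
  have hC0 : 0 ≤ C := by
    rw [hC]
    unfold CN
    positivity
  set e := MeasurableEquiv.piEquivPiSubtypeProd (fun _ : Fin k × Fin k => ℝ) (Eqp p)
    with he
  have hmp : MeasurePreserving e := volume_preserving_piEquivPiSubtypeProd _ _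
  have hFi := FL_int hk N t z w h h00 h10 h01 h11
  set F : (Fin k × Fin k → ℝ) → ℂ := fun L => (Wt N L : ℂ) * osc t (Lc L) z w h with hF
  have h1 : KK N t z w h = ∫ y, F (e.symm y) := (hmp.symm.integral_comp' F).symm
  have hFi2 : Integrable (fun y => F (e.symm y)) :=
    (hmp.symm.integrable_comp_emb e.symm.measurableEmbedding).2 hFi
  rw [h1, Measure.volume_eq_prod, integral_prod_symm _ (by
    rw [← Measure.volume_eq_prod]
    exact hFi2)]
  have h2 : ∀ b : {q : Fin k × Fin k // ¬ Eqp p q} → ℝ,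
      ∫ a : {q : Fin k × Fin k // Eqp p q} → ℝ, F (e.symm (a, b)) = ∫ s : ℝ, F (ins p s b) := by
    intro b
    have hu := uniqEqp p
    rw [← (fu (ι := {q : Fin k × Fin k // Eqp p q})).symm.integral_comp']
    apply integral_congr_ae
    refine ae_of_all _ fun s => ?_
    simp only
    congr 1
  simp only [h2]
  calc ‖∫ b : {q : Fin k × Fin k // ¬ Eqp p q} → ℝ, ∫ s : ℝ, F (ins p s b)‖
      ≤ ∫ b : {q : Fin k × Fin k // ¬ Eqp p q} → ℝ, (∏ q, om k N (b q - dl q.1)) * C := by
        apply norm_integral_le_of_norm_le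
        · apply Integrable.mul_const
          rw [volume_pi]
          exact Integrable.fintype_prod
            (f := fun (q : {q : Fin k × Fin k // ¬ Eqp p q}) x => om k N (x - dl q.1))
            fun q => (om_int k N).comp_sub_right (dl q.1)
        · refine ae_of_all _ fun b => ?_
          exact inner_bound hk N p t ht z w h h00 h10 h01 h11 hw hh hp b
    _ = (∏ q : {q : Fin k × Fin k // ¬ Eqp p q}, ∫ x : ℝ, om k N (x - dl q.1)) * C := by
        rw [integral_mul_const]
        congr 1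
        exact integral_fintype_prod_volume_eq_prod
          (fun (q : {q : Fin k × Fin k // ¬ Eqp p q}) x => om k N (x - dl q.1))
    _ ≤ 1 * C := by
        gcongr
        apply Finset.prod_le_one
        · intro q _
          exact integral_nonneg fun x => om_nonneg _ _ _
        · intro q _
          rw [integral_sub_right_eq_self (fun x => om k N x) (dl q.1)]
          exact om_integral hk N
    _ = C := one_mul _

lemma K_one (hk : 1 ≤ k) (N : ℕ) (t : ℝ) (z w h : Fin k → ℝ)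
    (h00 : ‖z‖ ≤ ep k) (h10 : ‖z + w‖ ≤ ep k) (h01 : ‖z + h‖ ≤ ep k)
    (h11 : ‖z + w + h‖ ≤ ep k) : ‖KK N t z w h‖ ≤ 1 := by
  calc ‖KK N t z w h‖ ≤ ∫ L : Fin k × Fin k → ℝ, Wt N L :=
        norm_integral_le_of_norm_le (Wt_int N)
          (ae_of_all _ fun L => FL_le hk N t L z w h h00 h10 h01 h11)
    _ = ∏ p : Fin k × Fin k, ∫ x : ℝ, om k N (x - dl p) :=
        integral_fintype_prod_volume_eq_prod (fun (p : Fin k × Fin k) x => om k N (x - dl p))
    _ ≤ 1 := by
        apply Finset.prod_le_one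
        · intro q _
          exact integral_nonneg fun x => om_nonneg _ _ _
        · intro q _
          rw [integral_sub_right_eq_self (fun x => om k N x) (dl q)]
          exact om_integral hk N

end Pool.Agent.H153R5
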