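import Mathlib
import Pool.Agent.H153R5.Ker1
set_option autoImplicit false

/-! The averaged `L^2` estimate. -/

namespace Pool.Agent.H153R5

open Complex MeasureTheory Set
open scoped ENNReal ComplexConjugate

variable {k : ℕ}

/-- height function -/
noncomputable def fr (L : Fin k × Fin k → ℝ) (z : Fin k → ℝ) : ℝ := Real.sqrt (1 - qr L z)

/-- oscillating factor -/
noncomputable def el (t : ℝ) (L : Fin k × Fin k → ℝ) (h z : Fin k → ℝ) : ℂ :=
  cexp (((-(2 * Real.pi * t * (fr L (z + h) - fr L z)) : ℝ) : ℂ) * I)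

lemma el_norm (t : ℝ) (L : Fin k × Fin k → ℝ) (h z : Fin k → ℝ) : ‖el t L h z‖ = 1 :=
  Complex.norm_exp_ofReal_mul_I _

lemma qr_meas {Y : Type*} [MeasurableSpace Y] {f : Y → Fin k × Fin k → ℝ} {g : Y → Fin k → ℝ}
    (hf : Measurable f) (hg : Measurable g) : Measurable fun y => qr (f y) (g y) := by
  unfold qr
  apply Finset.measurable_sum
  intro m _
  apply Measurable.pow_const
  apply Finset.measurable_sum
  intro b _
  exact ((measurable_pi_apply _).comp hf).mul ((measurable_pi_apply _).comp hg)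

lemma fr_meas {Y : Type*} [MeasurableSpace Y] {f : Y → Fin k × Fin k → ℝ} {g : Y → Fin k → ℝ}
    (hf : Measurable f) (hg : Measurable g) : Measurable fun y => fr (f y) (g y) := by
  unfold fr
  exact Real.continuous_sqrt.measurable.comp (measurable_const.sub (qr_meas hf hg))

lemma el_meas {Y : Type*} [MeasurableSpace Y] (t : ℝ) (h : Fin k → ℝ) {f : Y → Fin k × Fin k → ℝ}
    {g : Y → Fin k → ℝ} (hf : Measurable f) (hg : Measurable g) :
    Measurable fun y => el t (f y) h (g y) := by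
  unfold el
  exact Complex.measurable_exp.comp ((Complex.measurable_ofReal.comp
    (measurable_const.mul ((fr_meas hf (hg.add measurable_const)).sub (fr_meas hf hg))).neg).mul
      measurable_const)

lemma vv_fr (hk : 1 ≤ k) {L : Fin k × Fin k → ℝ} (hL : NR L) (z : Fin k → ℝ)
    (hz : ‖z‖ ≤ ep k) : vv (Lc L) z = (fr L z : ℂ) := by
  have h1 := one_sub_re hk (NR_NI hk hL) z hz
  rw [qq_Lc] at h1
  simp only [sub_re, one_re, ofReal_re] at h1
  exact vv_Lc L z (by linarith)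

lemma osc_el (hk : 1 ≤ k) {L : Fin k × Fin k → ℝ} (hL : NR L) (t : ℝ) (z z' h : Fin k → ℝ)
    (h1 : ‖z‖ ≤ ep k) (h2 : ‖z + h‖ ≤ ep k) (h3 : ‖z'‖ ≤ ep k) (h4 : ‖z' + h‖ ≤ ep k) :
    osc t (Lc L) z' (z - z') h = el t L h z * conj (el t L h z') := by
  unfold osc G4 el
  rw [← Complex.exp_conj, ← Complex.exp_add]
  have e1 : z' + (z - z') = z := by abel
  rw [e1, vv_fr hk hL _ h1, vv_fr hk hL _ h2, vv_fr hk hL _ h3, vv_fr hk hL _ h4]
  congr 1
  simp only [map_mul, Complex.conj_ofReal, Complex.conj_I]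
  push_cast
  ring

/-- the weighted parameter measure -/
noncomputable def rhoW (k N : ℕ) : Measure (Fin k × Fin k → ℝ) :=
  volume.withDensity fun L => ENNReal.ofReal (Wt N L)

lemma Wt_lint (hk : 1 ≤ k) (N : ℕ) :
    ∫⁻ L : Fin k × Fin k → ℝ, ENNReal.ofReal (Wt N L) ≤ 1 := by
  rw [← ofReal_integral_eq_lintegral_ofReal (Wt_int N) (ae_of_all _ (Wt_nonneg N)),
    ENNReal.ofReal_le_one]
  calc ∫ L : Fin k × Fin k → ℝ, Wt N L = ∏ p : Fin k × Fin k, ∫ x : ℝ, om k N (x - dl p) :=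
        integral_fintype_prod_volume_eq_prod (fun (p : Fin k × Fin k) x => om k N (x - dl p))
    _ ≤ 1 := by
        apply Finset.prod_le_one
        · intro q _
          exact integral_nonneg fun x => om_nonneg _ _ _
        · intro q _
          rw [integral_sub_right_eq_self (fun x => om k N x) (dl q)]
          exact om_integral hk N

lemma rho_fin (hk : 1 ≤ k) (N : ℕ) : IsFiniteMeasure (rhoW k N) := by
  constructor
  unfold rhoW
  rw [withDensity_apply _ MeasurableSet.univ, Measure.restrict_univ]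
  exact (Wt_lint hk N).trans_lt ENNReal.one_lt_top

lemma rho_integral (N : ℕ) (F : (Fin k × Fin k → ℝ) → ℂ) :
    ∫ L, F L ∂(rhoW k N) = ∫ L, (Wt N L : ℂ) * F L := by
  unfold rhoW
  rw [integral_withDensity_eq_integral_toReal_smul (Wt_meas N).ennreal_ofReal
    (ae_of_all _ fun L => ENNReal.ofReal_lt_top)]
  apply integral_congr_ae
  refine ae_of_all _ fun L => ?_
  simp only
  rw [ENNReal.toReal_ofReal (Wt_nonneg N L), Complex.real_smul]

lemma rho_lint (N : ℕ) {F : (Fin k × Fin k → ℝ) → ℝ≥0∞} (hF : Measurable F) :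
    ∫⁻ L, F L ∂(rhoW k N) = ∫⁻ L, ENNReal.ofReal (Wt N L) * F L := by
  unfold rhoW
  rw [lintegral_withDensity_eq_lintegral_mul _ (Wt_meas N).ennreal_ofReal hF]
  rfl

lemma kap_eq (hk : 1 ≤ k) (N : ℕ) (t : ℝ) (z z' h : Fin k → ℝ)
    (h1 : ‖z‖ ≤ ep k) (h2 : ‖z + h‖ ≤ ep k) (h3 : ‖z'‖ ≤ ep k) (h4 : ‖z' + h‖ ≤ ep k) :
    ∫ L, el t L h z * conj (el t L h z') ∂(rhoW k N) = KK N t z' (z - z') h := by
  rw [rho_integral]
  unfold KK
  apply integral_congr_ae
  refine ae_of_all _ fun L => ?_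
  simp only
  by_cases h0 : Wt N L = 0
  · rw [h0]
    simp
  · rw [osc_el hk (Wt_NR N L h0) t z z' h h1 h2 h3 h4]

/-- the oscillatory integral -/
noncomputable def Bo (t : ℝ) (L : Fin k × Fin k → ℝ) (h : Fin k → ℝ) (G : (Fin k → ℝ) → ℂ) : ℂ :=
  ∫ z, G z * el t L h z

/-- functions with the right support -/
structure SG (M : ℝ) (h : Fin k → ℝ) (G : (Fin k → ℝ) → ℂ) : Prop where
  meas : Measurable G
  bd : ∀ z, ‖G z‖ ≤ M
  s1 : ∀ z, G z ≠ 0 → ‖z‖ ≤ ep k
  s2 : ∀ z, G z ≠ 0 → ‖z + h‖ ≤ ep k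

/-- the small cube -/
def qc (k : ℕ) : Set (Fin k → ℝ) := Metric.closedBall 0 (ep k)

lemma qc_vol (hk : 1 ≤ k) : volume (qc k) ≤ 1 := by
  unfold qc
  have hε := ep_pos hk
  have h2 := ep_le hk
  rw [Real.volume_pi_closedBall _ hε.le, ENNReal.ofReal_le_one, Fintype.card_fin]
  apply pow_le_one₀ (by positivity)
  linarith

lemma SG.int (hk : 1 ≤ k) {M : ℝ} {h : Fin k → ℝ} {G : (Fin k → ℝ) → ℂ} (hG : SG M h G) :
    Integrable G := by
  classical
  have h1 : G = (qc k).indicator G := by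
    ext z
    by_cases hz : z ∈ qc k
    · rw [indicator_of_mem hz]
    · rw [indicator_of_notMem hz]
      by_contra h0
      exact hz (mem_closedBall_zero_iff.2 (hG.s1 z h0))
  have hm : MeasurableSet (qc k) := Metric.isClosed_closedBall.measurableSet
  rw [h1, integrable_indicator_iff hm]
  exact Measure.integrableOn_of_bounded (M := M) ((qc_vol hk).trans_lt ENNReal.one_lt_top).ne
    hG.meas.aestronglyMeasurable (ae_of_all _ hG.bd)

lemma Bo_sq (hk : 1 ≤ k) (N : ℕ) (t : ℝ) {M : ℝ} {h : Fin k → ℝ} {G : (Fin k → ℝ) → ℂ}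
    (hG : SG M h G) :
    ∫⁻ L, ‖Bo t L h G‖ₑ ^ 2 ∂(rhoW k N) ≤
      ∫⁻ y : (Fin k → ℝ) × (Fin k → ℝ), ‖G y.1‖ₑ * ‖G y.2‖ₑ *
        ‖KK N t y.2 (y.1 - y.2) h‖ₑ := by
  have hfin := rho_fin hk N
  have hGi := hG.int hk
  -- the double integrand
  set H : (Fin k × Fin k → ℝ) × ((Fin k → ℝ) × (Fin k → ℝ)) → ℂ := fun x =>
    (G x.2.1 * el t x.1 h x.2.1) * conj (G x.2.2 * el t x.1 h x.2.2) with hH
  have hHm : Measurable H := by
    apply Measurable.mul
    · exact (hG.meas.comp (by fun_prop)).mul (el_meas t h measurable_fst (by fun_prop))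
    · exact continuous_conj.measurable.comp
        ((hG.meas.comp (by fun_prop)).mul (el_meas t h measurable_fst (by fun_prop)))
  have hHi : Integrable H ((rhoW k N).prod (volume.prod volume)) := by
    have h1 : Integrable (fun x : (Fin k × Fin k → ℝ) × ((Fin k → ℝ) × (Fin k → ℝ)) =>
        (1 : ℝ) * (‖G x.2.1‖ * ‖G x.2.2‖)) ((rhoW k N).prod (volume.prod volume)) :=
      Integrable.mul_prod (f := fun _ : Fin k × Fin k → ℝ => (1 : ℝ))
        (g := fun y : (Fin k → ℝ) × (Fin k → ℝ) => ‖G y.1‖ * ‖G y.2‖)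
        (integrable_const 1) (hGi.norm.mul_prod hGi.norm)
    refine h1.mono' hHm.aestronglyMeasurable (ae_of_all _ fun x => ?_)
    simp only [hH, norm_mul, RCLike.norm_conj, el_norm, mul_one, one_mul]
    exact le_rfl
  have hBsq : ∀ L, ((‖Bo t L h G‖ ^ 2 : ℝ) : ℂ) =
      ∫ y : (Fin k → ℝ) × (Fin k → ℝ), H (L, y) ∂(volume.prod volume) := by
    intro L
    have h1 : ((‖Bo t L h G‖ ^ 2 : ℝ) : ℂ) = Bo t L h G * conj (Bo t L h G) := by
      rw [Complex.mul_conj, Complex.normSq_eq_norm_sq]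
    rw [h1]
    unfold Bo
    rw [← integral_conj]
    exact (integral_prod_mul (fun z => G z * el t L h z)
      (fun z => conj (G z * el t L h z))).symm
  have hBm : Measurable fun L => Bo t L h G := by
    unfold Bo
    have : Measurable fun x : (Fin k × Fin k → ℝ) × (Fin k → ℝ) => G x.2 * el t x.1 h x.2 :=
      (hG.meas.comp measurable_snd).mul (el_meas t h measurable_fst measurable_snd)
    exact (this.stronglyMeasurable.integral_prod_right' (ν := volume)).measurable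
  have hBi : Integrable (fun L => ‖Bo t L h G‖ ^ 2) (rhoW k N) := by
    have h1 := hHi.integral_prod_left
    refine h1.norm.congr (ae_of_all _ fun L => ?_)
    simp only
    rw [← hBsq L, Complex.norm_real, Real.norm_of_nonneg (by positivity)]
  have h1 : ∫⁻ L, ‖Bo t L h G‖ₑ ^ 2 ∂(rhoW k N) =
      ENNReal.ofReal (∫ L, ‖Bo t L h G‖ ^ 2 ∂(rhoW k N)) := by
    rw [ofReal_integral_eq_lintegral_ofReal hBi (ae_of_all _ fun L => by positivity)]
    congr 1
    ext L
    rw [ENNReal.ofReal_pow (norm_nonneg _), ofReal_norm]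
  have h2 : ((∫ L, ‖Bo t L h G‖ ^ 2 ∂(rhoW k N) : ℝ) : ℂ) =
      ∫ y : (Fin k → ℝ) × (Fin k → ℝ), (∫ L, H (L, y) ∂(rhoW k N)) ∂(volume.prod volume) := by
    rw [← integral_complex_ofReal]
    simp only [hBsq]
    exact integral_integral_swap (f := fun L y => H (L, y)) hHi
  have h3 : ∀ y : (Fin k → ℝ) × (Fin k → ℝ), ∫ L, H (L, y) ∂(rhoW k N) =
      G y.1 * conj (G y.2) * KK N t y.2 (y.1 - y.2) h := by
    intro y
    have e : ∀ L, H (L, y) = G y.1 * conj (G y.2) * (el t L h y.1 * conj (el t L h y.2)) := by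
      intro L
      simp only [hH, map_mul]
      ring
    simp only [e]
    rw [integral_const_mul]
    by_cases a1 : G y.1 = 0
    · rw [a1]
      simp
    by_cases a2 : G y.2 = 0
    · rw [a2]
      simp
    rw [kap_eq hk N t y.1 y.2 h (hG.s1 _ a1) (hG.s2 _ a1) (hG.s1 _ a2) (hG.s2 _ a2)]
  rw [h1]
  have h4 : ENNReal.ofReal (∫ L, ‖Bo t L h G‖ ^ 2 ∂(rhoW k N)) =
      ‖((∫ L, ‖Bo t L h G‖ ^ 2 ∂(rhoW k N) : ℝ) : ℂ)‖ₑ := by
    rw [← ofReal_norm, Complex.norm_real, Real.norm_of_nonneg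
      (integral_nonneg fun L => by positivity)]
  rw [h4, h2]
  refine (enorm_integral_le_lintegral_enorm _).trans (le_of_eq ?_)
  rw [Measure.volume_eq_prod]
  congr 1
  ext y
  rw [h3 y, enorm_mul, enorm_mul]
  congr 2
  rw [← ofReal_norm, ← ofReal_norm, RCLike.norm_conj]

end Pool.Agent.H153R5
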