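import Mathlib
import Pool.Agent.H153R5.Ker2
set_option autoImplicit false

/-! The averaged `L^2` bound. -/

namespace Pool.Agent.H153R5

open Complex MeasureTheory Set
open scoped ENNReal ComplexConjugate

variable {k : ℕ}

/-- the order -/
def No (k : ℕ) : ℕ := 2 * k - 1

/-- constant -/
noncomputable def C1 (k : ℕ) : ℝ := 2 ^ (2 * k) * (1 + CN (No k) (ep k))

lemma CN_nonneg (hk : 1 ≤ k) (N : ℕ) : 0 ≤ CN N (ep k) := by
  have hε := ep_pos hk
  unfold CN
  positivity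

lemma C1_nonneg (hk : 1 ≤ k) : 0 ≤ C1 k := by
  have := CN_nonneg hk (No k)
  unfold C1
  positivity

lemma K_dec (hk : 1 ≤ k) (t : ℝ) (ht : t ≠ 0) (z w h : Fin k → ℝ)
    (h00 : ‖z‖ ≤ ep k) (h10 : ‖z + w‖ ≤ ep k) (h01 : ‖z + h‖ ≤ ep k)
    (h11 : ‖z + w + h‖ ≤ ep k) (hh : h ≠ 0) :
    ‖KK (No k) t z w h‖ ≤ C1 k * (1 + ‖(|t| * ‖h‖) • w‖) ^ (-((2 * k : ℕ) : ℝ)) := by
  have hC := CN_nonneg hk (No k)
  have hlam : 0 < |t| * ‖h‖ := mul_pos (abs_pos.2 ht) (norm_pos_iff.2 hh)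
  set u : ℝ := ‖(|t| * ‖h‖) • w‖ with hu
  have hu0 : 0 ≤ u := norm_nonneg _
  have huw : u = |t| * ‖h‖ * ‖w‖ := by
    rw [hu, norm_smul, Real.norm_of_nonneg hlam.le]
  rw [Real.rpow_neg (by positivity), Real.rpow_natCast, ← div_eq_mul_inv,
    le_div_iff₀ (by positivity)]
  rcases le_or_gt u 1 with h1 | h1
  · have h2 := K_one hk (No k) t z w h h00 h10 h01 h11
    calc ‖KK (No k) t z w h‖ * (1 + u) ^ (2 * k) ≤ 1 * 2 ^ (2 * k) := by
          gcongr
          linarith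
      _ ≤ C1 k := by
          unfold C1
          have : (0 : ℝ) < 2 ^ (2 * k) := by positivity
          nlinarith
  · have hw : w ≠ 0 := by
      intro hw
      rw [huw, hw, norm_zero, mul_zero] at h1
      linarith
    have h2 := K_bound hk (No k) t ht z w h h00 h10 h01 h11 hw hh
    have hN : No k + 1 = 2 * k := by unfold No; omega
    rw [hN] at h2
    have h3 : u ≤ Real.pi / 2 * (|t| * (‖w‖ * ‖h‖)) := by
      have h4 : |t| * (‖w‖ * ‖h‖) = u := by rw [huw]; ring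
      rw [h4]
      have := Real.pi_gt_three
      nlinarith
    have h5 : ‖KK (No k) t z w h‖ ≤ CN (No k) (ep k) / u ^ (2 * k) := by
      refine h2.trans ?_
      gcongr
    have hup : 0 < u ^ (2 * k) := by positivity
    rw [le_div_iff₀ hup] at h5
    calc ‖KK (No k) t z w h‖ * (1 + u) ^ (2 * k) ≤ ‖KK (No k) t z w h‖ * (2 * u) ^ (2 * k) := by
          gcongr
          linarith
      _ = 2 ^ (2 * k) * (‖KK (No k) t z w h‖ * u ^ (2 * k)) := by ring
      _ ≤ 2 ^ (2 * k) * CN (No k) (ep k) := by gcongr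
      _ ≤ C1 k := by
          unfold C1
          have : (0 : ℝ) < 2 ^ (2 * k) := by positivity
          nlinarith

/-- constant -/
noncomputable def C2 (k : ℕ) : ℝ :=
  ∫ w : Fin k → ℝ, (1 + ‖w‖) ^ (-((2 * k : ℕ) : ℝ))

lemma int_w (hk : 1 ≤ k) :
    Integrable fun w : Fin k → ℝ => (1 + ‖w‖) ^ (-((2 * k : ℕ) : ℝ)) := by
  apply integrable_one_add_norm
  rw [Module.finrank_fintype_fun_eq_card, Fintype.card_fin]
  have : (1 : ℝ) ≤ k := by exact_mod_cast hk
  push_cast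
  linarith

lemma C2_nonneg : 0 ≤ C2 k := by
  unfold C2
  exact integral_nonneg fun w => by positivity

lemma scale_int (hk : 1 ≤ k) (l : ℝ) (hl : 0 < l) :
    ∫⁻ w : Fin k → ℝ, ENNReal.ofReal (C1 k * (1 + ‖l • w‖) ^ (-((2 * k : ℕ) : ℝ))) =
      ENNReal.ofReal (C1 k * C2 k * (l ^ k)⁻¹) := by
  have h1 := Measure.integral_comp_smul (volume : Measure (Fin k → ℝ))
    (fun w => (1 + ‖w‖) ^ (-((2 * k : ℕ) : ℝ))) l
  have hi : Integrable fun w : Fin k → ℝ => (1 + ‖l • w‖) ^ (-((2 * k : ℕ) : ℝ)) :=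
    (int_w hk).comp_smul hl.ne'
  rw [Module.finrank_fintype_fun_eq_card, Fintype.card_fin, smul_eq_mul,
    abs_of_pos (by positivity)] at h1
  rw [← ofReal_integral_eq_lintegral_ofReal (hi.const_mul _) (ae_of_all _ fun w => by
    have := C1_nonneg hk
    positivity)]
  congr 1
  rw [integral_const_mul, h1]
  unfold C2
  ring

lemma Bo_triv (hk : 1 ≤ k) (t : ℝ) {M : ℝ} {h : Fin k → ℝ} {G : (Fin k → ℝ) → ℂ}
    (hG : SG M h G) (L : Fin k × Fin k → ℝ) : ‖Bo t L h G‖ₑ ≤ ENNReal.ofReal M := by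
  unfold Bo
  refine (enorm_integral_le_lintegral_enorm _).trans ?_
  have h1 : ∀ z, ‖G z * el t L h z‖ₑ ≤ (qc k).indicator (fun _ => ENNReal.ofReal M) z := by
    intro z
    by_cases hz : z ∈ qc k
    · rw [indicator_of_mem hz, ← ofReal_norm, norm_mul, el_norm, mul_one]
      exact ENNReal.ofReal_le_ofReal (hG.bd z)
    · rw [indicator_of_notMem hz]
      have : G z = 0 := by
        by_contra h0
        exact hz (mem_closedBall_zero_iff.2 (hG.s1 z h0))
      simp [this]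
  refine (lintegral_mono h1).trans ?_
  have hm : MeasurableSet (qc k) := Metric.isClosed_closedBall.measurableSet
  rw [lintegral_indicator hm, lintegral_const, Measure.restrict_apply_univ]
  calc ENNReal.ofReal M * volume (qc k) ≤ ENNReal.ofReal M * 1 := by
        gcongr
        exact qc_vol hk
    _ = _ := mul_one _

lemma Bo_one (hk : 1 ≤ k) (t : ℝ) {M : ℝ} {h : Fin k → ℝ} {G : (Fin k → ℝ) → ℂ}
    (hG : SG M h G) : ∫⁻ L, ‖Bo t L h G‖ₑ ^ 2 ∂(rhoW k (No k)) ≤ ENNReal.ofReal M ^ 2 := by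
  have hfin := rho_fin hk (No k)
  calc ∫⁻ L, ‖Bo t L h G‖ₑ ^ 2 ∂(rhoW k (No k)) ≤
        ∫⁻ L, ENNReal.ofReal M ^ 2 ∂(rhoW k (No k)) := by
        apply lintegral_mono
        intro L
        simp only
        gcongr
        exact Bo_triv hk t hG L
    _ ≤ ENNReal.ofReal M ^ 2 * 1 := by
        rw [lintegral_const]
        gcongr
        unfold rhoW
        rw [withDensity_apply _ MeasurableSet.univ, Measure.restrict_univ]
        exact Wt_lint hk (No k)
    _ = _ := mul_one _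

lemma Bo_dec (hk : 1 ≤ k) (t : ℝ) (ht : t ≠ 0) {M : ℝ} {h : Fin k → ℝ} (hh : h ≠ 0)
    {G : (Fin k → ℝ) → ℂ} (hG : SG M h G) :
    ∫⁻ L, ‖Bo t L h G‖ₑ ^ 2 ∂(rhoW k (No k)) ≤
      ENNReal.ofReal M ^ 2 * ENNReal.ofReal (C1 k * C2 k * ((|t| * ‖h‖) ^ k)⁻¹) := by
  have hm : MeasurableSet (qc k) := Metric.isClosed_closedBall.measurableSet
  have hlam : 0 < |t| * ‖h‖ := mul_pos (abs_pos.2 ht) (norm_pos_iff.2 hh)
  set Φ : (Fin k → ℝ) → ℝ≥0∞ := fun w =>
    ENNReal.ofReal (C1 k * (1 + ‖(|t| * ‖h‖) • w‖) ^ (-((2 * k : ℕ) : ℝ))) with hΦ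
  have hΦm : Measurable Φ := by
    rw [hΦ]
    fun_prop
  refine (Bo_sq hk (No k) t hG).trans ?_
  have h1 : ∀ y : (Fin k → ℝ) × (Fin k → ℝ), ‖G y.1‖ₑ * ‖G y.2‖ₑ *
        ‖KK (No k) t y.2 (y.1 - y.2) h‖ₑ ≤
      ENNReal.ofReal M ^ 2 * ((qc k).indicator (fun _ => 1) y.2 * Φ (y.1 - y.2)) := by
    intro y
    by_cases a1 : G y.1 = 0
    · rw [a1]
      simp
    by_cases a2 : G y.2 = 0
    · rw [a2]
      simp
    have b1 := hG.s1 _ a1
    have b2 := hG.s2 _ a1
    have b3 := hG.s1 _ a2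
    have b4 := hG.s2 _ a2
    have hq : y.2 ∈ qc k := mem_closedBall_zero_iff.2 b3
    rw [indicator_of_mem hq, one_mul]
    have e1 : ‖G y.1‖ₑ ≤ ENNReal.ofReal M := by
      rw [← ofReal_norm]
      exact ENNReal.ofReal_le_ofReal (hG.bd _)
    have e2 : ‖G y.2‖ₑ ≤ ENNReal.ofReal M := by
      rw [← ofReal_norm]
      exact ENNReal.ofReal_le_ofReal (hG.bd _)
    have e3 : ‖KK (No k) t y.2 (y.1 - y.2) h‖ₑ ≤ Φ (y.1 - y.2) := by
      rw [← ofReal_norm]
      apply ENNReal.ofReal_le_ofReal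
      have c1 : y.2 + (y.1 - y.2) = y.1 := by abel
      apply K_dec hk t ht
      · exact b3
      · rw [c1]; exact b1
      · exact b4
      · rw [c1]; exact b2
      · exact hh
    rw [sq]
    gcongr
  refine (lintegral_mono h1).trans ?_
  have hmy : Measurable fun y : (Fin k → ℝ) × (Fin k → ℝ) =>
      (qc k).indicator (fun _ => (1 : ℝ≥0∞)) y.2 * Φ (y.1 - y.2) :=
    ((measurable_const.indicator hm).comp measurable_snd).mul
      (hΦm.comp (measurable_fst.sub measurable_snd))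
  rw [lintegral_const_mul _ hmy]
  gcongr
  rw [Measure.volume_eq_prod, lintegral_prod_symm _ hmy.aemeasurable]
  have h2 : ∀ y : Fin k → ℝ, ∫⁻ x : Fin k → ℝ,
      (qc k).indicator (fun _ => (1 : ℝ≥0∞)) y * Φ (x - y) =
      (qc k).indicator (fun _ => (1 : ℝ≥0∞)) y * ∫⁻ x, Φ x := by
    intro y
    rw [lintegral_const_mul _ (show Measurable fun x => Φ (x - y) from
      hΦm.comp (measurable_id.sub measurable_const)),
      lintegral_sub_right_eq_self (fun x => Φ x) y]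
  simp only [h2]
  rw [lintegral_mul_const _ (measurable_const.indicator hm), lintegral_indicator hm,
    lintegral_const, Measure.restrict_apply_univ, one_mul]
  calc volume (qc k) * ∫⁻ x, Φ x ≤ 1 * ∫⁻ x, Φ x := by
        gcongr
        exact qc_vol hk
    _ = ENNReal.ofReal (C1 k * C2 k * ((|t| * ‖h‖) ^ k)⁻¹) := by
        rw [one_mul, hΦ]
        exact scale_int hk _ hlam

/-- constant -/
noncomputable def C3 (k : ℕ) : ℝ := 1 + C1 k * C2 k

lemma C3_one (hk : 1 ≤ k) : 1 ≤ C3 k := by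
  have h1 := C1_nonneg hk
  have h2 := C2_nonneg (k := k)
  have : 0 ≤ C1 k * C2 k := mul_nonneg h1 h2
  unfold C3
  linarith

lemma Bo_beta (hk : 1 ≤ k) (t : ℝ) (ht : t ≠ 0) {M : ℝ} {h : Fin k → ℝ}
    (hh : ∀ j, h j ≠ 0) (β : ℝ) (hβ0 : 0 ≤ β) (hβ1 : β ≤ 1)
    {G : (Fin k → ℝ) → ℂ} (hG : SG M h G) :
    ∫⁻ L, ‖Bo t L h G‖ₑ ^ 2 ∂(rhoW k (No k)) ≤
      ENNReal.ofReal M ^ 2 * (ENNReal.ofReal (C3 k * |t| ^ (-(k * (1 - β)))) *
        ∏ j, ENNReal.ofReal (|h j| ^ (β - 1))) := by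
  have hC3 := C3_one hk
  have hC1 := C1_nonneg hk
  have hC2 := C2_nonneg (k := k)
  have ht0 := abs_pos.2 ht
  have hne : h ≠ 0 := by
    intro h0
    exact hh ⟨0, by omega⟩ (by rw [h0]; rfl)
  have hhn := norm_pos_iff.2 hne
  set x : ℝ := ((|t| * ‖h‖) ^ k)⁻¹ with hx
  have hx0 : 0 < x := by positivity
  have h1 : ∫⁻ L, ‖Bo t L h G‖ₑ ^ 2 ∂(rhoW k (No k)) ≤
      ENNReal.ofReal M ^ 2 * ENNReal.ofReal (C3 k * x ^ (1 - β)) := by
    rcases le_or_gt x 1 with hx1 | hx1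
    · refine (Bo_dec hk t ht hne hG).trans ?_
      gcongr
      · unfold C3; linarith
      · calc x = x ^ (1 : ℝ) := (Real.rpow_one x).symm
          _ ≤ x ^ (1 - β) := Real.rpow_le_rpow_of_exponent_ge hx0 hx1 (by linarith)
    · refine (Bo_one hk t hG).trans ?_
      have h2 : (1 : ℝ) ≤ C3 k * x ^ (1 - β) := by
        have h3 : 1 ≤ x ^ (1 - β) := Real.one_le_rpow hx1.le (by linarith)
        nlinarith
      calc ENNReal.ofReal M ^ 2 = ENNReal.ofReal M ^ 2 * 1 := (mul_one _).symm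
        _ ≤ _ := by
          gcongr
          rw [← ENNReal.ofReal_one]
          exact ENNReal.ofReal_le_ofReal h2
  refine h1.trans (mul_le_mul' le_rfl ?_)
  rw [← ENNReal.ofReal_prod_of_nonneg (fun _ _ => by positivity),
    ← ENNReal.ofReal_mul (by positivity)]
  apply ENNReal.ofReal_le_ofReal
  rw [mul_assoc]
  gcongr
  have h4 : x ≤ (|t| ^ k)⁻¹ * ∏ j, |h j|⁻¹ := by
    rw [hx, mul_pow, mul_inv]
    gcongr
    rw [← inv_pow]
    calc (‖h‖⁻¹) ^ k = ∏ j : Fin k, ‖h‖⁻¹ := by simp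
      _ ≤ ∏ j, |h j|⁻¹ := by
          apply Finset.prod_le_prod
          · intro j _
            positivity
          · intro j _
            apply inv_anti₀ (abs_pos.2 (hh j))
            rw [← Real.norm_eq_abs]
            exact norm_le_pi_norm h j
  calc x ^ (1 - β) ≤ ((|t| ^ k)⁻¹ * ∏ j, |h j|⁻¹) ^ (1 - β) :=
        Real.rpow_le_rpow hx0.le h4 (by linarith)
    _ = |t| ^ (-(k * (1 - β))) * ∏ j, |h j| ^ (β - 1) := by
        rw [Real.mul_rpow (by positivity) (Finset.prod_nonneg fun j _ => by positivity)]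
        congr 1
        · rw [← Real.rpow_natCast, ← Real.rpow_neg ht0.le, ← Real.rpow_mul ht0.le]
          congr 1
          ring
        · rw [← Real.finsetProd_rpow _ _ (fun j _ => by positivity)]
          apply Finset.prod_congr rfl
          intro j _
          rw [Real.inv_rpow (abs_nonneg _), ← Real.rpow_neg (abs_nonneg _)]
          congr 1
          ring

end Pool.Agent.H153R5
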