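import Mathlib
import Pool.Agent.H153R4.Main
import Pool.Agent.H153R4.Chg
import Pool.Agent.H153R5.Ker3
set_option autoImplicit false

/-! Moments of the Fourier transforms of the transported densities. -/

namespace Pool.Agent.H153R5

open Complex MeasureTheory Set
open scoped ENNReal FourierTransform ComplexConjugate RealInnerProductSpace
open Pool.Agent.H153R4 (E BS Q2 Q2_meas J_fin cube cube_vol kk kk_zero BB four plancherel ST
  ST_meas ST_vol emb_ofLp ae_ne_zero interp)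

variable {k : ℕ}

/-- the modulated density -/
noncomputable def gg (t : ℝ) (L : Fin k × Fin k → ℝ) (f : E k → ℂ) (z : E k) : ℂ :=
  cexp (((-(2 * Real.pi * t * fr L z.ofLp) : ℝ) : ℂ) * I) * f z

lemma gg_norm (t : ℝ) (L : Fin k × Fin k → ℝ) (f : E k → ℂ) (z : E k) :
    ‖gg t L f z‖ = ‖f z‖ := by
  unfold gg
  rw [norm_mul, Complex.norm_exp_ofReal_mul_I, one_mul]

lemma gg_enorm (t : ℝ) (L : Fin k × Fin k → ℝ) (f : E k → ℂ) (z : E k) :
    ‖gg t L f z‖ₑ = ‖f z‖ₑ := by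
  rw [← ofReal_norm, ← ofReal_norm, gg_norm]

lemma gg_meas {Y : Type*} [MeasurableSpace Y] {a : Y → ℝ} {b : Y → Fin k × Fin k → ℝ}
    {c : Y → E k} {f : E k → ℂ} (ha : Measurable a) (hb : Measurable b) (hc : Measurable c)
    (hf : Measurable f) : Measurable fun y => gg (a y) (b y) f (c y) := by
  unfold gg
  exact (Complex.measurable_exp.comp ((Complex.measurable_ofReal.comp
    ((measurable_const.mul ha).mul
      (fr_meas hb ((emb_ofLp k).measurable.comp hc))).neg).mul measurable_const)).mul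
    (hf.comp hc)

lemma BS_gg {M : ℝ} {f : E k → ℂ} (hf : BS M f) (t : ℝ) (L : Fin k × Fin k → ℝ) :
    BS M (gg t L f) := by
  refine ⟨gg_meas measurable_const measurable_const measurable_id hf.meas, fun z => ?_,
    fun z hz => ?_⟩
  · rw [gg_norm]
    exact hf.bd z
  · unfold gg
    rw [hf.supp z hz, mul_zero]

/-- small support -/
structure SS (M : ℝ) (f : E k → ℂ) : Prop where
  meas : Measurable f
  bd : ∀ z, ‖f z‖ ≤ M
  supp : ∀ z, f z ≠ 0 → ‖z.ofLp‖ ≤ ep k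

lemma SS.bs (hk : 1 ≤ k) {M : ℝ} {f : E k → ℂ} (hf : SS M f) : BS M f := by
  refine ⟨hf.meas, hf.bd, fun z hz => ?_⟩
  by_contra h0
  apply hz
  intro j
  have h1 := hf.supp z h0
  have h2 := norm_le_pi_norm z.ofLp j
  have h3 := ep_le hk
  rw [Real.norm_eq_abs] at h2
  linarith

lemma BB_gg (t : ℝ) (L : Fin k × Fin k → ℝ) (f : E k → ℂ) (h : E k) :
    BB (gg t L f) h = Bo t L h.ofLp (fun z => kk f h (WithLp.toLp 2 z)) := by
  unfold BB Bo
  rw [← (PiLp.volume_preserving_ofLp (Fin k)).integral_comp (emb_ofLp k)]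
  apply integral_congr_ae
  refine ae_of_all _ fun z => ?_
  simp only [kk, gg, map_mul, el]
  rw [← Complex.exp_conj]
  have e1 : cexp (((-(2 * Real.pi * t * fr L (z + h).ofLp) : ℝ) : ℂ) * I) *
        cexp (conj ((((-(2 * Real.pi * t * fr L z.ofLp) : ℝ) : ℂ) * I))) =
        cexp (((-(2 * Real.pi * t * (fr L (z.ofLp + h.ofLp) - fr L z.ofLp)) : ℝ) : ℂ) * I) := by
    rw [← Complex.exp_add]
    congr 1
    simp only [map_mul, Complex.conj_ofReal, Complex.conj_I, WithLp.ofLp_add]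
    push_cast
    ring
  have e2 : (WithLp.toLp 2 z.ofLp : E k) = z := rfl
  rw [e2]
  linear_combination (f (z + h) * conj (f z)) * e1

lemma SG_kk {M : ℝ} {f : E k → ℂ} (hf : SS M f) (h : E k) :
    SG (M ^ 2) h.ofLp (fun z => kk f h (WithLp.toLp 2 z)) := by
  have hM : 0 ≤ M := (norm_nonneg _).trans (hf.bd 0)
  refine ⟨?_, fun z => ?_, fun z hz => ?_, fun z hz => ?_⟩
  · have h1 : Measurable fun z : Fin k → ℝ => (WithLp.toLp 2 z : E k) :=
      (MeasurableEquiv.toLp 2 (Fin k → ℝ)).measurable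
    unfold kk
    exact (hf.meas.comp (h1.add measurable_const)).mul
      (continuous_conj.measurable.comp (hf.meas.comp h1))
  · unfold kk
    rw [norm_mul, RCLike.norm_conj, sq]
    exact mul_le_mul (hf.bd _) (hf.bd _) (norm_nonneg _) hM
  · have h2 : f (WithLp.toLp 2 z) ≠ 0 := by
      intro h0
      apply hz
      simp only [kk]
      rw [h0, map_zero, mul_zero]
    exact hf.supp _ h2
  · have h2 : f (WithLp.toLp 2 z + h) ≠ 0 := by
      intro h0
      apply hz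
      simp only [kk]
      rw [h0, zero_mul]
    exact hf.supp _ h2

lemma BB_meas {f : E k → ℂ} (hf : Measurable f) (t : ℝ) :
    Measurable fun p : (Fin k × Fin k → ℝ) × E k => BB (gg t p.1 f) p.2 := by
  unfold BB
  have h1 : Measurable fun r : ((Fin k × Fin k → ℝ) × E k) × E k =>
      kk (gg t r.1.1 f) r.1.2 r.2 := by
    unfold kk
    exact (gg_meas measurable_const (by fun_prop) (by fun_prop) hf).mul
      (continuous_conj.measurable.comp
        (gg_meas measurable_const (by fun_prop) (by fun_prop) hf))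
  exact (h1.stronglyMeasurable.integral_prod_right' (ν := volume)).measurable

/-- constant -/
noncomputable def J4 (k : ℕ) (β : ℝ) : ℝ≥0∞ :=
  ∫⁻ h in Q2 k, ∏ j, ENNReal.ofReal (|h j| ^ (β - 1))

lemma mom4 (hk : 1 ≤ k) (t : ℝ) (ht : t ≠ 0) (β : ℝ) (hβ0 : 0 ≤ β) (hβ1 : β ≤ 1) {M : ℝ}
    {f : E k → ℂ} (hf : SS M f) :
    ∫⁻ L, (∫⁻ x, ‖𝓕 (gg t L f) x‖ₑ ^ 4) ∂(rhoW k (No k)) ≤
      ENNReal.ofReal (C3 k * |t| ^ (-(k * (1 - β)))) * (ENNReal.ofReal M ^ 4 * J4 k β) := by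
  have hM : 0 ≤ M := (norm_nonneg _).trans (hf.bd 0)
  have hfin := rho_fin hk (No k)
  have h1 : ∀ L, ∫⁻ x, ‖𝓕 (gg t L f) x‖ₑ ^ 4 = ∫⁻ h, ‖BB (gg t L f) h‖ₑ ^ 2 := fun L =>
    four (BS_gg (hf.bs hk) t L)
  simp only [h1]
  rw [lintegral_lintegral_swap ((BB_meas hf.meas t).enorm.pow_const 2).aemeasurable]
  have hae : ∀ᵐ h : E k, ∫⁻ L, ‖BB (gg t L f) h‖ₑ ^ 2 ∂(rhoW k (No k)) ≤
      (Q2 k).indicator (fun h => (ENNReal.ofReal (C3 k * |t| ^ (-(k * (1 - β)))) *
        ENNReal.ofReal M ^ 4) * ∏ j, ENNReal.ofReal (|h j| ^ (β - 1))) h := by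
    filter_upwards [ae_ne_zero k] with h hh0
    by_cases hh : h ∈ Q2 k
    · rw [indicator_of_mem hh]
      simp only [BB_gg]
      refine (Bo_beta hk t ht hh0 β hβ0 hβ1 (SG_kk hf h)).trans (le_of_eq ?_)
      have e : ENNReal.ofReal (M ^ 2) ^ 2 = ENNReal.ofReal M ^ 4 := by
        rw [ENNReal.ofReal_pow hM, ← pow_mul]
      rw [e]
      ring
    · rw [indicator_of_notMem hh]
      have h2 : ∃ j, 2 < |h j| := by
        by_contra hc
        push Not at hc
        exact hh hc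
      have h3 : ∀ L, BB (gg t L f) h = 0 := by
        intro L
        unfold BB
        have : ∀ z, kk (gg t L f) h z = 0 := fun z => kk_zero (BS_gg (hf.bs hk) t L) h h2 z
        simp [this]
      simp [h3]
  refine (lintegral_mono_ae hae).trans ?_
  rw [lintegral_indicator (Q2_meas _), lintegral_const_mul _ (by fun_prop)]
  unfold J4
  rw [mul_assoc]

lemma mom2 (hk : 1 ≤ k) (t : ℝ) {M : ℝ} {f : E k → ℂ} (hf : SS M f) :
    ∫⁻ L, (∫⁻ x, ‖𝓕 (gg t L f) x‖ₑ ^ 2) ∂(rhoW k (No k)) ≤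
      volume (cube k) * ENNReal.ofReal (M ^ 2) := by
  have hfin := rho_fin hk (No k)
  have h1 : ∀ L, ∫⁻ x, ‖𝓕 (gg t L f) x‖ₑ ^ 2 ≤ volume (cube k) * ENNReal.ofReal (M ^ 2) := by
    intro L
    have hb := BS_gg (hf.bs hk) t L
    rw [plancherel _ hb.int (hb.memLp 2)]
    exact hb.l2
  refine (lintegral_mono h1).trans ?_
  rw [lintegral_const]
  calc volume (cube k) * ENNReal.ofReal (M ^ 2) * (rhoW k (No k)) univ ≤
        volume (cube k) * ENNReal.ofReal (M ^ 2) * 1 := by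
        gcongr
        unfold rhoW
        rw [withDensity_apply _ MeasurableSet.univ, Measure.restrict_univ]
        exact Wt_lint hk (No k)
    _ = _ := mul_one _

lemma Fgg_meas {f : E k → ℂ} (hf : Measurable f) :
    Measurable fun q : (ℝ × (Fin k × Fin k → ℝ)) × E k => 𝓕 (gg q.1.1 q.1.2 f) q.2 := by
  simp only [Real.fourier_eq]
  have h1 : Measurable fun r : ((ℝ × (Fin k × Fin k → ℝ)) × E k) × E k =>
      Real.fourierChar (-⟪r.2, r.1.2⟫) • gg r.1.1.1 r.1.1.2 f r.2 := by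
    have hin : Measurable fun r : ((ℝ × (Fin k × Fin k → ℝ)) × E k) × E k =>
        -⟪r.2, r.1.2⟫ := by fun_prop
    have hk : Measurable fun r : ((ℝ × (Fin k × Fin k → ℝ)) × E k) × E k =>
        gg r.1.1.1 r.1.1.2 f r.2 :=
      gg_meas (by fun_prop) (by fun_prop) (by fun_prop) hf
    have hc : Measurable fun r : ((ℝ × (Fin k × Fin k → ℝ)) × E k) × E k =>
        ((Real.fourierChar (-⟪r.2, r.1.2⟫) : Circle) : ℂ) :=
      (continuous_subtype_val.comp Real.continuous_fourierChar).measurable.comp hin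
    exact hc.mul hk
  exact (h1.stronglyMeasurable.integral_prod_right' (ν := volume)).measurable

/-- time-parameter integral -/
noncomputable def JJ (q : ℝ) (S : Set ℝ) (f : E k → ℂ) : ℝ≥0∞ :=
  ∫⁻ t in S, ∫⁻ L, (∫⁻ x, ‖𝓕 (gg t L f) x‖ₑ ^ q) ∂(rhoW k (No k))

lemma JJ_eq (hk : 1 ≤ k) (q : ℝ) (S : Set ℝ) {f : E k → ℂ} (hf : Measurable f) :
    JJ q S f = ∫⁻ w, ‖𝓕 (gg w.1.1 w.1.2 f) w.2‖ₑ ^ q
      ∂(((volume.restrict S).prod (rhoW k (No k))).prod volume) := by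
  have hfin := rho_fin hk (No k)
  unfold JJ
  have hm := (Fgg_meas hf).enorm.pow_const q
  rw [lintegral_prod _ hm.aemeasurable,
    lintegral_prod _ (hm.lintegral_prod_right').aemeasurable]

lemma JJ_interp (hk : 1 ≤ k) (q : ℝ) (hq2 : 2 ≤ q) (hq4 : q ≤ 4) (S : Set ℝ) {f : E k → ℂ}
    (hf : Measurable f) :
    JJ q S f ≤ JJ 2 S f ^ ((4 - q) / 2) * JJ 4 S f ^ ((q - 2) / 2) := by
  rw [JJ_eq hk q S hf, JJ_eq hk 2 S hf, JJ_eq hk 4 S hf]
  have h := interp (((volume.restrict S).prod (rhoW k (No k))).prod volume)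
    (fun w : (ℝ × (Fin k × Fin k → ℝ)) × E k => ‖𝓕 (gg w.1.1 w.1.2 f) w.2‖ₑ)
    (Fgg_meas hf).enorm q hq2 hq4
  refine h.trans (le_of_eq ?_)
  simp only [ENNReal.rpow_ofNat]

lemma JJ_two (hk : 1 ≤ k) (S : Set ℝ) {M : ℝ} {f : E k → ℂ} (hf : SS M f) :
    JJ 2 S f ≤ volume S * (volume (cube k) * ENNReal.ofReal (M ^ 2)) := by
  unfold JJ
  simp only [ENNReal.rpow_ofNat]
  calc ∫⁻ t in S, ∫⁻ L, (∫⁻ x, ‖𝓕 (gg t L f) x‖ₑ ^ 2) ∂(rhoW k (No k))
      ≤ ∫⁻ t in S, volume (cube k) * ENNReal.ofReal (M ^ 2) :=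
        lintegral_mono fun t => mom2 hk t hf
    _ = _ := by
        rw [lintegral_const, Measure.restrict_apply_univ, mul_comm]

lemma JJ_four (hk : 1 ≤ k) (T : ℝ) (hT : 1 ≤ T) (β : ℝ) (hβ0 : 0 ≤ β) (hβ1 : β ≤ 1) {M : ℝ}
    {f : E k → ℂ} (hf : SS M f) :
    JJ 4 (ST T) f ≤
      ENNReal.ofReal (2 * T * (C3 k * T ^ (-(k * (1 - β))))) *
        (ENNReal.ofReal M ^ 4 * J4 k β) := by
  have hT0 : 0 < T := by linarith
  have hC3 := C3_one hk
  unfold JJ
  simp only [ENNReal.rpow_ofNat]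
  calc ∫⁻ t in ST T, ∫⁻ L, (∫⁻ x, ‖𝓕 (gg t L f) x‖ₑ ^ 4) ∂(rhoW k (No k))
      ≤ ∫⁻ t in ST T, ENNReal.ofReal (C3 k * T ^ (-(k * (1 - β)))) *
          (ENNReal.ofReal M ^ 4 * J4 k β) := by
        apply setLIntegral_mono' (ST_meas T)
        intro t ht
        have ht0 : 0 < |t| := lt_of_lt_of_le hT0 ht.1
        refine (mom4 hk t (abs_pos.1 ht0) β hβ0 hβ1 hf).trans ?_
        gcongr ENNReal.ofReal ?_ * _
        apply mul_le_mul_of_nonneg_left _ (by linarith)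
        apply Real.rpow_le_rpow_of_nonpos hT0 ht.1
        have : 0 ≤ (k : ℝ) * (1 - β) := mul_nonneg (Nat.cast_nonneg _) (by linarith)
        linarith
    _ = volume (ST T) * (ENNReal.ofReal (C3 k * T ^ (-(k * (1 - β)))) *
          (ENNReal.ofReal M ^ 4 * J4 k β)) := by
        rw [lintegral_const, Measure.restrict_apply_univ, mul_comm]
    _ ≤ ENNReal.ofReal (2 * T) * (ENNReal.ofReal (C3 k * T ^ (-(k * (1 - β)))) *
          (ENNReal.ofReal M ^ 4 * J4 k β)) := by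
        gcongr
        exact ST_vol T hT0.le
    _ = _ := by
        rw [← mul_assoc, ← ENNReal.ofReal_mul (by positivity)]

end Pool.Agent.H153R5
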