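import Mathlib
import Pool.Agent.H153R5.Mom
set_option autoImplicit false

/-! The global estimate. -/

namespace Pool.Agent.H153R5

open Complex MeasureTheory Set
open scoped ENNReal FourierTransform ComplexConjugate RealInnerProductSpace
open Pool.Agent.H153R4 (E BS Q2 Q2_meas J_fin cube cube_vol kk kk_zero BB four plancherel ST
  ST_meas ST_vol emb_ofLp ae_ne_zero interp choose_beta)

variable {k : ℕ}

lemma J4_fin (k : ℕ) (β : ℝ) (hβ : 0 < β) : J4 k β < ⊤ := J_fin k β hβ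

/-- exponent -/
noncomputable def ex (k : ℕ) (q β : ℝ) : ℝ :=
  (4 - q) / 2 - ((k : ℝ) - 1 - k * β) * ((q - 2) / 2)

/-- constant -/
noncomputable def C5 (k : ℕ) (q : ℝ) : ℝ :=
  2 ^ ((4 - q) / 2) * (2 * C3 k) ^ ((q - 2) / 2)

lemma const_eq (hk : 1 ≤ k) (q β T : ℝ) (hT : 0 < T) :
    (2 * T) ^ ((4 - q) / 2) * (2 * T * (C3 k * T ^ (-(k * (1 - β))))) ^ ((q - 2) / 2) =
      C5 k q * T ^ ex k q β := by
  have hC3 := C3_one hk
  have e1 : 2 * T * (C3 k * T ^ (-(k * (1 - β)))) =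
      (2 * C3 k) * T ^ (-((k : ℝ) - 1 - k * β)) := by
    have : T ^ (-((k : ℝ) - 1 - k * β)) = T * T ^ (-(k * (1 - β))) := by
      nth_rw 2 [← Real.rpow_one T]
      rw [← Real.rpow_add hT]
      congr 1
      ring
    rw [this]
    ring
  rw [e1, Real.mul_rpow (by norm_num) hT.le, Real.mul_rpow (x := 2 * C3 k) (by positivity)
    (by positivity), ← Real.rpow_mul hT.le]
  unfold C5 ex
  rw [sub_eq_add_neg ((4 - q) / 2), Real.rpow_add hT, neg_mul]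
  ring

lemma block_q (hk : 1 ≤ k) (T : ℝ) (hT : 1 ≤ T) (β q : ℝ) (hβ0 : 0 ≤ β) (hβ1 : β ≤ 1)
    (hq2 : 2 ≤ q) (hq4 : q ≤ 4) {M : ℝ} {f : E k → ℂ} (hf : SS M f) :
    JJ q (ST T) f ≤ ENNReal.ofReal (C5 k q * T ^ ex k q β) *
      (volume (cube k) ^ ((4 - q) / 2) * J4 k β ^ ((q - 2) / 2)) * ENNReal.ofReal M ^ q := by
  have hM : 0 ≤ M := (norm_nonneg _).trans (hf.bd 0)
  have hT0 : 0 < T := by linarith
  have hC3 := C3_one hk
  have hq0 : 0 ≤ (4 - q) / 2 := by linarith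
  have hq0' : 0 ≤ (q - 2) / 2 := by linarith
  have h2 : JJ 2 (ST T) f ≤ ENNReal.ofReal (2 * T) *
      (volume (cube k) * ENNReal.ofReal (M ^ 2)) := by
    refine (JJ_two hk (ST T) hf).trans ?_
    gcongr
    exact ST_vol T hT0.le
  have h4 := JJ_four hk T hT β hβ0 hβ1 hf
  refine (JJ_interp hk q hq2 hq4 (ST T) hf.meas).trans ?_
  refine (mul_le_mul' (ENNReal.rpow_le_rpow h2 hq0) (ENNReal.rpow_le_rpow h4 hq0')).trans
    (le_of_eq ?_)
  rw [← const_eq hk q β T hT0]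
  rw [ENNReal.mul_rpow_of_nonneg _ _ hq0, ENNReal.mul_rpow_of_nonneg _ _ hq0,
    ENNReal.mul_rpow_of_nonneg _ _ hq0', ENNReal.mul_rpow_of_nonneg _ _ hq0',
    ENNReal.ofReal_mul (p := (2 * T) ^ ((4 - q) / 2)) (by positivity),
    ENNReal.ofReal_rpow_of_nonneg (by positivity) hq0,
    ENNReal.ofReal_rpow_of_nonneg (by positivity) hq0']
  have e3 : ENNReal.ofReal (M ^ 2) ^ ((4 - q) / 2) * (ENNReal.ofReal M ^ 4) ^ ((q - 2) / 2) =
      ENNReal.ofReal M ^ q := by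
    rw [ENNReal.ofReal_pow hM, ← ENNReal.rpow_natCast,
      ← ENNReal.rpow_natCast, ← ENNReal.rpow_mul, ← ENNReal.rpow_mul,
      ← ENNReal.rpow_add_of_nonneg _ _ (by push_cast; linarith) (by push_cast; linarith)]
    congr 1
    push_cast
    ring
  rw [← e3]
  generalize ENNReal.ofReal (M ^ 2) ^ ((4 - q) / 2) = x1
  generalize (ENNReal.ofReal M ^ 4) ^ ((q - 2) / 2) = x2
  generalize ENNReal.ofReal ((2 * T) ^ ((4 - q) / 2)) = x3
  generalize ENNReal.ofReal ((2 * T * (C3 k * T ^ (-(k * (1 - β))))) ^ ((q - 2) / 2)) = x4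
  generalize volume (cube k) ^ ((4 - q) / 2) = x5
  generalize J4 k β ^ ((q - 2) / 2) = x6
  ring

lemma JJ_univ (q : ℝ) (f : E k → ℂ) :
    JJ q univ f ≤ JJ q (Icc (-1) 1) f + ∑' j : ℕ, JJ q (ST (2 ^ j)) f := by
  unfold JJ
  have h1 : (univ : Set ℝ) ⊆ Icc (-1) 1 ∪ ⋃ j : ℕ, ST (2 ^ j) := by
    intro t _
    by_cases ht : |t| ≤ 1
    · left
      exact abs_le.1 ht
    · right
      push Not at ht
      obtain ⟨j, hj1, hj2⟩ := exists_nat_pow_near ht.le (by norm_num : (1 : ℝ) < 2)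
      rw [mem_iUnion]
      refine ⟨j, hj1, ?_⟩
      rw [pow_succ] at hj2
      linarith
  refine (lintegral_mono_set h1).trans ((lintegral_union_le _ _ _).trans ?_)
  gcongr
  exact lintegral_iUnion_le _ _

lemma Fbd_e {M : ℝ} {g : E k → ℂ} (hg : BS M g) (x : E k) :
    ‖𝓕 g x‖ₑ ≤ volume (cube k) * ENNReal.ofReal M := by
  rw [← ofReal_norm]
  refine (ENNReal.ofReal_le_ofReal (hg.fbd x)).trans (le_of_eq ?_)
  rw [ENNReal.ofReal_mul ENNReal.toReal_nonneg, ENNReal.ofReal_toReal (cube_vol k).ne]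

lemma JJ_mono_q (hk : 1 ≤ k) (q q0 : ℝ) (hq0 : 0 ≤ q0) (hq : q0 ≤ q) (S : Set ℝ) {M : ℝ}
    {f : E k → ℂ} (hf : SS M f) :
    JJ q S f ≤ (volume (cube k) * ENNReal.ofReal M) ^ (q - q0) * JJ q0 S f := by
  rw [JJ_eq hk q S hf.meas, JJ_eq hk q0 S hf.meas,
    ← lintegral_const_mul _ ((Fgg_meas hf.meas).enorm.pow_const q0)]
  apply lintegral_mono
  intro w
  simp only
  have h1 := Fbd_e (BS_gg (hf.bs hk) w.1.1 w.1.2) w.2
  have h2 : q - q0 + q0 = q := by ring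
  have h3 : 0 ≤ q - q0 := by linarith
  generalize ‖𝓕 (gg w.1.1 w.1.2 f) w.2‖ₑ = y at *
  calc y ^ q = y ^ (q - q0) * y ^ q0 := by
        rw [← ENNReal.rpow_add_of_nonneg _ _ h3 hq0, h2]
    _ ≤ _ := mul_le_mul' (ENNReal.rpow_le_rpow h1 h3) le_rfl

theorem glob_low (hk : 2 ≤ k) (q : ℝ) (hq : 2 + 2 / (k : ℝ) < q) (hq4 : q ≤ 4) :
    ∃ C : ℝ≥0∞, C < ⊤ ∧ ∀ (M : ℝ) (f : E k → ℂ), SS M f →
      JJ q univ f ≤ C * ENNReal.ofReal M ^ q := by
  obtain ⟨m, rfl⟩ : ∃ m, k = m + 1 := ⟨k - 1, by omega⟩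
  have hm : (0 : ℝ) < m := by
    have : 0 < m := by omega
    exact_mod_cast this
  have hk1 : 1 ≤ m + 1 := by omega
  obtain ⟨β, hβ0, hβ1, hβ⟩ := choose_beta m m q hm (by
    push_cast at hq
    rw [add_comm (1 : ℝ)]
    exact hq)
  have hq2 : 2 ≤ q := by
    have : (0 : ℝ) < 2 / ((m + 1 : ℕ) : ℝ) := by positivity
    linarith
  have hex : ex (m + 1) q β < 0 := by
    unfold ex
    push_cast
    calc (4 - q) / 2 - ((m : ℝ) + 1 - 1 - (m + 1) * β) * ((q - 2) / 2) =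
        (4 - q) / 2 - (m - (m + 1) * β) * ((q - 2) / 2) := by ring
      _ < 0 := hβ
  set e : ℝ := ex (m + 1) q β with he
  set V : ℝ≥0∞ := volume (cube (m + 1)) with hV
  have hVf : V < ⊤ := cube_vol (m + 1)
  set W : ℝ≥0∞ := V ^ ((4 - q) / 2) * (J4 (m + 1) β) ^ ((q - 2) / 2) with hW
  have hWf : W < ⊤ := ENNReal.mul_lt_top
    (ENNReal.rpow_lt_top_of_nonneg (by linarith) hVf.ne)
    (ENNReal.rpow_lt_top_of_nonneg (by linarith) (J4_fin (m + 1) β hβ0).ne)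
  set x : ℝ≥0∞ := ENNReal.ofReal ((2 : ℝ) ^ e) with hx
  have hx1 : x < 1 := by
    rw [hx, ENNReal.ofReal_lt_one]
    exact Real.rpow_lt_one_of_one_lt_of_neg (by norm_num) hex
  have hC5 : 0 ≤ C5 (m + 1) q := by
    have := C3_one hk1
    unfold C5
    positivity
  have hsum : ∑' j : ℕ, ENNReal.ofReal (C5 (m + 1) q * ((2 : ℝ) ^ j) ^ e) =
      ENNReal.ofReal (C5 (m + 1) q) * (1 - x)⁻¹ := by
    rw [← ENNReal.tsum_geometric, ← ENNReal.tsum_mul_left]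
    congr 1
    ext j
    rw [ENNReal.ofReal_mul hC5, hx, ← ENNReal.ofReal_pow (by positivity)]
    congr 2
    rw [← Real.rpow_natCast, ← Real.rpow_mul (by norm_num), mul_comm, Real.rpow_mul (by norm_num),
      Real.rpow_natCast]
  refine ⟨V ^ (q - 2) * (ENNReal.ofReal 2 * V) +
    ENNReal.ofReal (C5 (m + 1) q) * (1 - x)⁻¹ * W, ?_, ?_⟩
  · apply ENNReal.add_lt_top.2 ⟨?_, ?_⟩
    · exact ENNReal.mul_lt_top (ENNReal.rpow_lt_top_of_nonneg (by linarith) hVf.ne)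
        (ENNReal.mul_lt_top ENNReal.ofReal_lt_top hVf)
    · refine ENNReal.mul_lt_top (ENNReal.mul_lt_top ENNReal.ofReal_lt_top ?_) hWf
      rw [ENNReal.inv_lt_top]
      exact tsub_pos_of_lt hx1
  intro M f hf
  have hM : 0 ≤ M := (norm_nonneg _).trans (hf.bd 0)
  refine (JJ_univ q f).trans ?_
  rw [add_mul]
  apply add_le_add
  · refine (JJ_mono_q hk1 q 2 (by norm_num) hq2 (Icc (-1) 1) hf).trans ?_
    have h2 : JJ 2 (Icc (-1) 1) f ≤ ENNReal.ofReal 2 * (V * ENNReal.ofReal (M ^ 2)) := by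
      refine (JJ_two hk1 (Icc (-1) 1) hf).trans ?_
      gcongr
      rw [Real.volume_Icc]
      norm_num
    refine (mul_le_mul' le_rfl h2).trans (le_of_eq ?_)
    rw [ENNReal.mul_rpow_of_nonneg _ _ (by linarith : (0 : ℝ) ≤ q - 2)]
    have e3 : ENNReal.ofReal M ^ (q - 2) * ENNReal.ofReal (M ^ 2) = ENNReal.ofReal M ^ q := by
      rw [ENNReal.ofReal_pow hM, ← ENNReal.rpow_natCast,
        ← ENNReal.rpow_add_of_nonneg _ _ (by linarith) (by norm_num)]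
      congr 1
      push_cast
      ring
    rw [← e3]
    ring
  · rw [← hsum, ← ENNReal.tsum_mul_right, ← ENNReal.tsum_mul_right]
    apply ENNReal.tsum_le_tsum
    intro j
    exact block_q hk1 (2 ^ j) (one_le_pow₀ (by norm_num)) β q hβ0.le hβ1 hq2 hq4 hf

theorem glob (hk : 2 ≤ k) (q : ℝ) (hq : 2 + 2 / (k : ℝ) < q) :
    ∃ C : ℝ≥0∞, C < ⊤ ∧ ∀ (M : ℝ) (f : E k → ℂ), SS M f →
      JJ q univ f ≤ C * ENNReal.ofReal M ^ q := by
  rcases le_or_gt q 4 with hq4 | hq4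
  · exact glob_low hk q hq hq4
  · have h4 : 2 + 2 / (k : ℝ) < 4 := by
      have h1 : (2 : ℝ) ≤ k := by exact_mod_cast hk
      have : 2 / (k : ℝ) < 2 := by
        rw [div_lt_iff₀ (by linarith)]
        linarith
      linarith
    obtain ⟨C, hC, h⟩ := glob_low hk 4 h4 le_rfl
    refine ⟨(volume (cube k)) ^ (q - 4) * C, ENNReal.mul_lt_top
      (ENNReal.rpow_lt_top_of_nonneg (by linarith) (cube_vol _).ne) hC, ?_⟩
    intro M f hf
    refine (JJ_mono_q (by omega) q 4 (by norm_num) hq4.le univ hf).trans ?_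
    refine (mul_le_mul' le_rfl (h M f hf)).trans (le_of_eq ?_)
    rw [ENNReal.mul_rpow_of_nonneg _ _ (by linarith : (0 : ℝ) ≤ q - 4)]
    have e3 : ENNReal.ofReal M ^ (q - 4) * ENNReal.ofReal M ^ (4 : ℝ) = ENNReal.ofReal M ^ q := by
      rw [← ENNReal.rpow_add_of_nonneg _ _ (by linarith) (by norm_num)]
      congr 1
      ring
    rw [← e3]
    ring

end Pool.Agent.H153R5
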